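import Pool.Agent.K1H54.NU.Stm3

/-!
Leray-Hopf solutions with the equation in integrated form.
-/

open Set Filter Topology MeasureTheory
open scoped ENNReal

set_option autoImplicit false

namespace Pool.Agent.K1H54.NU

open Pool.Agent.Y5 Pool.Agent.Y5.D Pool.Agent.Y5.E Pool.Agent.K1H54.LO Pool.Agent.K1H54.L2

/-- Leray-Hopf solutions in terms of the coefficients (the equation in integrated form). -/
structure FLHi (D : Z3 → ℝ) (β : Fam → Fam → Fam → ℝ) (V : ℝ → Fam) : Prop where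
  ot : ∀ t, 0 ≤ t → OT (V t)
  fin : ∑' k, ‖V 0 k‖ₑ ^ 2 ≠ ⊤
  eqn : ∀ Z, OT Z → {k | Z k ≠ 0}.Finite → ∃ L : ℝ → ℝ,
    (∀ᵐ τ ∂volume.restrict (Ioi 0),
      Tendsto (fun K : ℕ => bil (trn K (V τ)) (trn K (V τ)) Z + β (trn K (V τ)) (trn K (V τ)) Z)
        atTop (𝓝 (L τ))) ∧
    ∀ t, 0 ≤ t → IntervalIntegrable (fun τ => -lpD D (V τ) Z + L τ) volume 0 t ∧
      pair (V t) Z = pair (V 0) Z + ∫ τ in (0 : ℝ)..t, (-lpD D (V τ) Z + L τ)
  e0 : FEI D V 0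
  es : ∀ᵐ s ∂volume.restrict (Ioi 0), FEI D V s

/-- Our solutions are solutions in this sense. -/
def S_FLHI : Prop := ∀ (s δ C : ℝ) (D : Z3 → ℝ) (Q : Z3 → Prop) (β : Fam → Fam → Fam → ℝ)
  (V : ℝ → Fam), Sym D → FPert s δ C Q β → FLH D β V → FLHi D β V

/-- Weak-strong uniqueness. -/
def S_WSUI : Prop := ∀ (s δ C T : ℝ) (D : Z3 → ℝ) (Q : Z3 → Prop) (β : Fam → Fam → Fam → ℝ)
  (U V : ℝ → Fam), Sym D → FPert s δ C Q β → FSolD D β T U → FLHi D β V → V 0 = U 0 →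
  ∀ t ∈ Ico 0 T, V t = U t

end Pool.Agent.K1H54.NU
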