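import Pool.Agent.K1H54.NU.Stm

/-!
A continuum of Leray-Hopf solutions (Mathlib only).
-/

open Set Filter Topology MeasureTheory
open scoped ENNReal

set_option autoImplicit false

namespace Pool.Agent.K1H54.NU

/-- Limits of truncated solutions are Leray-Hopf solutions (with any levels of truncation). -/
def S_CPT2 : Prop := ∀ (G : GS) (x₀ : G.I ⊕ G.J → ℝ) (N : ℕ → ℕ) (X : ℕ → ℝ → G.I ⊕ G.J → ℝ),
  Tendsto N atTop atTop → (∀ M, {i | G.D i ≤ M}.Finite) → (∀ k, G.Tr (N k) (X k)) →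
  G.en x₀ ≠ ⊤ → (∀ i, Tendsto (fun k => X k 0 i) atTop (𝓝 (x₀ i))) →
  Tendsto (fun k => G.en (X k 0)) atTop (𝓝 (G.en x₀)) →
  ∃ (φ : ℕ → ℕ) (x : ℝ → G.I ⊕ G.J → ℝ), StrictMono φ ∧ x 0 = x₀ ∧ G.LH x ∧
    ∀ i R, TendstoUniformlyOn (fun k t => X (φ k) t i) (fun t => x t i) atTop (Icc 0 R)

/-- Continuous dependence of the truncated solutions on the data. -/
def S_CDP : Prop := ∀ (G : GS) (N : ℕ) (x : ℝ → ℝ → G.I ⊕ G.J → ℝ), (∀ θ, G.Tr N (x θ)) →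
  (∀ i, Continuous fun θ => x θ 0 i) → ∀ t, 0 ≤ t → ∀ i, Continuous fun θ => x θ t i

/-- A continuum of Leray-Hopf solutions for the infinite system. -/
def S_POSC : Prop := ∀ (G : GS) (n₁ : ℕ) (M Λ : ℝ) (a : ℕ → ℝ) (x₀ : G.I ⊕ G.J → ℝ),
  G.Fp n₁ M Λ a → Tendsto a atTop (𝓝 0) → (∀ M, {i | G.D i ≤ M}.Finite) →
  (∀ n, a n ≤ M) → G.en x₀ ≤ ENNReal.ofReal (M ^ 2 / 2) →
  (∀ n, n₁ ≤ n → a n ≤ G.Z n x₀) → (∀ j, x₀ (Sum.inr j) = 0) →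
  ∀ η : ℝ, 0 < η → ∃ t ∈ Ioo 0 η, ∃ w : ℝ → ℝ → G.I ⊕ G.J → ℝ,
    (∀ θ ∈ Icc (0 : ℝ) 1, w θ 0 = x₀ ∧ G.LH (w θ)) ∧ InjOn (fun θ => w θ t) (Icc 0 1)

end Pool.Agent.K1H54.NU
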