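import Pool.Agent.K1H54.LO3.St

/-!
Definitions for the theorem on the non-uniqueness of Leray-Hopf solutions.
-/

open Set Filter Topology MeasureTheory
open scoped ENNReal

set_option autoImplicit false

namespace Pool.Agent.K1H54.St

/-- the part `|k| ≤ K` of a family of coefficients -/
noncomputable def cut (K : ℝ) (V : (Fin 3 → ℤ) → E) : (Fin 3 → ℤ) → E :=
  fun k => if ‖fq k‖ ≤ K then V k else 0

/-- The energy inequality with the initial time `s`: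
`‖X t‖² + 2 ∫_s^t ν ‖(-Δ)^(α/2) X‖² ≤ ‖X s‖²` for all `t ≥ s`. -/
def EnIn (ν α : ℝ) (X : ℝ → (Fin 3 → ℤ) → E) (s : ℝ) : Prop :=
  ∀ t, s ≤ t → ∑' k, ‖X t k‖ₑ ^ 2 +
    2 * ∫⁻ τ in Ioc s t, ∑' k, ENNReal.ofReal (ν * (2 * Real.pi * ‖fq k‖) ^ (2 * α)) *
      ‖X τ k‖ₑ ^ 2 ≤ ∑' k, ‖X s k‖ₑ ^ 2

/-- Leray-Hopf solutions on `[0, ∞)` of `∂ₜ u + (u · ∇) u + ∇p = - ν (-Δ)^α u + N(u, u)`,
`div u = 0`. The fields `u(t)` in `L²` are given by the coefficients `X t` of their sine series.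
The datum has finite energy; for all trigonometric polynomials `z` the equation holds in the form
`⟨u(t), z⟩ = ⟨u(0), z⟩ + ∫_0^t (-ν ⟨(-Δ)^α u, z⟩ + L)`, where `L` is the limit of the nonlinear
terms of the truncated fields (so `u` is weakly continuous); and the energy inequality holds with
the initial time `0` and with almost every initial time `s > 0` (so `u` is in `L^∞ L² ∩ L² H^α`
for `ν > 0`). -/
structure LerayHopf (ν α : ℝ) (N : (E → E) → (E → E) → E → E)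
    (X : ℝ → (Fin 3 → ℤ) → E) : Prop where
  cf : ∀ t, 0 ≤ t → Cf (X t)
  fin : ∑' k, ‖X 0 k‖ₑ ^ 2 ≠ ⊤
  eqn : ∀ z, Trig z → ∃ L : ℝ → ℝ,
    (∀ᵐ τ ∂volume.restrict (Ioi 0), Tendsto (fun K : ℕ => -cnv (ser (cut K (X τ))) z +
      ip (N (ser (cut K (X τ))) (ser (cut K (X τ)))) z) atTop (𝓝 (L τ))) ∧
    ∀ t, 0 ≤ t →
      IntervalIntegrable (fun τ =>
        -(ν * ∑' k, (2 * Real.pi * ‖fq k‖) ^ (2 * α) * inner ℝ (X τ k) (hat z k)) + L τ)
        volume 0 t ∧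
      (∑' k, inner ℝ (X t k) (hat z k)) = (∑' k, inner ℝ (X 0 k) (hat z k)) +
        ∫ τ in (0 : ℝ)..t,
          (-(ν * ∑' k, (2 * Real.pi * ‖fq k‖) ^ (2 * α) * inner ℝ (X τ k) (hat z k)) + L τ)
  e0 : EnIn ν α X 0
  es : ∀ᵐ s ∂volume.restrict (Ioi 0), EnIn ν α X s

end Pool.Agent.K1H54.St
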