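import Pool.Agent.K1H54.NU.Main7
import Pool.Agent.K1H54.LO3.Cv
import Pool.Agent.K1H54.NU.St

/-!
The theorem in terms of the definitions of `St`.
-/

open Set Filter Topology MeasureTheory
open scoped ENNReal

set_option autoImplicit false

namespace Pool.Agent.K1H54.NU

open Pool.Agent.Y5 Pool.Agent.Y5.D Pool.Agent.Y5.E Pool.Agent.K1H54.LO Pool.Agent.K1H54.L2
  Pool.Agent.K1H54.L3
open Pool.Agent.Y274.NE (t_FLD2)
open Pool.Agent.K1H17.UN (fin_rap)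

/-- finitely many frequencies have length at most `K` -/
lemma fin_ball (K : ℝ) : {k : Z3 | ‖vec k‖ ≤ K}.Finite := by
  have h : {k : Z3 | ‖vec k‖ ≤ K} ⊆ {k : Z3 | ∀ i, k i ∈ Icc (-⌈K⌉) ⌈K⌉} := by
    intro k hk i
    have hk' : ‖vec k‖ ≤ K := hk
    have h1 : |(k i : ℝ)| ≤ ‖vec k‖ := by
      have := EuclideanSpace.norm_eq (vec k)
      rw [this]
      refine Real.abs_le_sqrt ?_
      have h2 : ((k i : ℝ)) ^ 2 = ‖(vec k) i‖ ^ 2 := by
        rw [Real.norm_eq_abs, sq_abs]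
        rfl
      rw [h2]
      exact Finset.single_le_sum (f := fun i => ‖(vec k) i‖ ^ 2) (fun _ _ => by positivity)
        (Finset.mem_univ i)
    have h2 := abs_le.1 (h1.trans hk')
    have h3 : K ≤ ⌈K⌉ := Int.le_ceil K
    constructor
    · have : (-(⌈K⌉ : ℝ)) ≤ k i := by linarith [h2.1]
      exact_mod_cast this
    · have : (k i : ℝ) ≤ ⌈K⌉ := by linarith [h2.2]
      exact_mod_cast this
  refine Set.Finite.subset ?_ h
  exact Set.Finite.pi' fun _ => Set.finite_Icc _ _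

lemma cut_ot {V : Fam} (h : OT V) (K : ℝ) : OT (trn K V) where
  odd := fun k => by
    unfold trn
    rw [vec_neg', norm_neg]
    split_ifs
    · exact h.odd k
    · rw [neg_zero]
  tan := fun k => by
    unfold trn
    split_ifs
    · exact h.tan k
    · rw [inner_zero_right]

lemma cut_rap (V : Fam) (K : ℝ) : Rap (trn K V) :=
  fin_rap ((fin_ball K).subset fun k hk => by
    by_contra h
    apply hk
    exact if_neg h)

/-- Leray-Hopf solutions in terms of the coefficients. -/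
theorem lh_iff {ν α : ℝ} {N : (E3 → E3) → (E3 → E3) → E3 → E3} {β : Fam → Fam → Fam → ℝ}
    (hrep : ∀ V W Z, OT V → Rap V → OT W → Rap W → OT Z → Rap Z →
      ip (N (fieldOf V) (fieldOf W)) (fieldOf Z) = β V W Z) {X : ℝ → Fam} :
    St.LerayHopf ν α N X ↔ FLHi (dsy ν α) β X := by
  have hval : ∀ (t : ℝ) (Z : Fam), OT (X t) → OT Z → {k | Z k ≠ 0}.Finite → ∀ K : ℕ,
      -St.cnv (St.ser (St.cut K (X t))) (fieldOf Z) +
        St.ip (N (St.ser (St.cut K (X t))) (St.ser (St.cut K (X t)))) (fieldOf Z) =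
      bil (trn K (X t)) (trn K (X t)) Z + β (trn K (X t)) (trn K (X t)) Z := by
    intro t Z hX hZ hZf K
    have hZ' := fin_rap hZf
    have h1 := hrep (trn K (X t)) (trn K (X t)) Z (cut_ot hX K) (cut_rap _ K) (cut_ot hX K)
      (cut_rap _ K) hZ hZ'
    have h2 := t_FLD2.1.2.1 (trn K (X t)) Z (cut_ot hX K) (cut_rap _ K) hZ hZ'
    have h3 : St.cnv (St.ser (St.cut K (X t))) (fieldOf Z) =
        -bil (trn K (X t)) (trn K (X t)) Z := h2
    rw [h3, neg_neg]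
    congr 1
  have hlin : ∀ (t : ℝ) (Z : Fam), OT Z → {k | Z k ≠ 0}.Finite →
      ν * ∑' k, (2 * Real.pi * ‖St.fq k‖) ^ (2 * α) * inner ℝ (X t k) (St.hat (fieldOf Z) k) =
      lpD (dsy ν α) (X t) Z := by
    intro t Z hZ hZf
    have h1 : St.hat (fieldOf Z) = Z := cf_fieldOf hZ (fin_rap hZf)
    rw [h1, ← tsum_mul_left]
    unfold lpD dsy
    exact tsum_congr fun k => by
      rw [show St.fq k = vec k from rfl]
      ring
  have hpr : ∀ (Z : Fam) (t : ℝ), OT Z → {k | Z k ≠ 0}.Finite →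
      (∑' k, inner ℝ (X t k) (St.hat (fieldOf Z) k)) = pair (X t) Z := by
    intro Z t hZ hZf
    have h1 : St.hat (fieldOf Z) = Z := cf_fieldOf hZ (fin_rap hZf)
    rw [h1]
    rfl
  constructor
  · intro h
    refine ⟨fun t ht => cf_iff.1 (h.cf t ht), h.fin, fun Z hZ hZf => ?_, h.e0, h.es⟩
    obtain ⟨L, h1, h2⟩ := h.eqn (fieldOf Z) (trig_iff.2 (tp_iff.2 ⟨Z, hZ, hZf, rfl⟩))
    refine ⟨L, ?_, fun t ht => ?_⟩
    · filter_upwards [h1, ae_restrict_mem measurableSet_Ioi] with τ hτ hτ0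
      exact hτ.congr fun K => hval τ Z (cf_iff.1 (h.cf τ (le_of_lt hτ0))) hZ hZf K
    · have h3 := h2 t ht
      simp only [fun τ => hlin τ Z hZ hZf, hpr Z _ hZ hZf] at h3
      exact h3
  · intro h
    refine ⟨fun t ht => cf_iff.2 (h.ot t ht), h.fin, fun z hz => ?_, h.e0, h.es⟩
    obtain ⟨Z, hZ, hZf, rfl⟩ := tp_iff.1 (trig_iff.1 hz)
    obtain ⟨L, h1, h2⟩ := h.eqn Z hZ hZf
    refine ⟨L, ?_, fun t ht => ?_⟩
    · filter_upwards [h1, ae_restrict_mem measurableSet_Ioi] with τ hτ hτ0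
      exact hτ.congr fun K => (hval τ Z (h.ot τ (le_of_lt hτ0)) hZ hZf K).symm
    · have h3 := h2 t ht
      simp only [fun τ => hlin τ Z hZ hZf, hpr Z _ hZ hZf]
      exact h3

open Pool.Agent.K1H54.St in
theorem v7' (hWSU : S_WSUI) (hFLHI : S_FLHI) (hPOSE : S_POSE) :
    ∀ (δ s α N₁ σ s₀ M : ℝ) (A : (E → E) → (E → E) → E → E), 0 < δ → 1 / 2 < s → s < 1 →
    0 ≤ α → 2 * α < s + 3 / 2 → σ < s + 3 / 2 - 2 * α → s₀ < s → Cons A →
    (∀ v w, Fld v → Fld w → ∀ X, (∀ y, ‖v y‖ ≤ X) →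
      √(St.ip (A v w) (A v w)) ≤ M * ((X + St.wie (s₀ - 1) v) * √(St.dir w))) →
    ∃ B : (E → E) → (E → E) → E → E, Cons B ∧
      (∀ v w, Fld v → Fld w → √(St.ip (B v w) (B v w)) ≤ δ * (St.wie (s - 1) v * √(St.dir w))) ∧
      (∀ v w, Fld v → Fld w → (∀ k, N₁ ≤ ‖fq k‖ → hat v k = 0) → B v w = 0) ∧
      (∀ v w, Fld v → Fld w → (∀ k, N₁ ≤ ‖fq k‖ → hat w k = 0) →
        ∀ k, ¬ N₁ ≤ ‖fq k‖ → hat (B v w) k = 0) ∧
      ∀ ν η : ℝ, 0 ≤ ν → 0 < η → ∃ (T : ℝ) (u : ℝ → E → E),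
        0 < T ∧ T ≤ η ∧ Sol ν α (fun v w => A v w + B v w) T u ∧ Trig (u 0) ∧
        St.sob σ (u 0) ≤ η ∧
        (∀ (T' : ℝ) (v : ℝ → E → E), 0 < T' → Sol ν α (fun v w => A v w + B v w) T' v →
          v 0 = u 0 → T' ≤ T ∧ ∀ t ∈ Ico 0 T', v t = u t) ∧
        (∀ t ∈ Ico 0 T, HasDerivWithinAt (fun τ => St.ip (u τ) (u τ))
          (-(2 * (ν * St.sob α (u t)))) (Ico 0 T) t) ∧
        (∀ K : ℝ, ∃ t ∈ Ico 0 T, ∃ y, K < ‖u t y‖) ∧
        (∀ X, LerayHopf ν α (fun v w => A v w + B v w) X → X 0 = hat (u 0) →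
          ∀ t ∈ Ico 0 T, X t = hat (u t)) ∧
        (0 < ν → 0 < α → ∀ t, T < t →
          ¬ {x | ∃ X, LerayHopf ν α (fun v w => A v w + B v w) X ∧ X 0 = hat (u 0) ∧
            X t = x}.Countable) := by
  intro δ s α N₁ σ s₀ M A hδ hs hs' hα hα' hσ hs₀ hA hb
  obtain ⟨B, hB, β, hrep, hmain⟩ := main7 hWSU hFLHI hPOSE δ s α N₁ σ s₀ M A hδ hs hs' hα hα' hσ hs₀
    (cop_of hA hb)
  refine ⟨B, cons_of hB, fun v w hv hw => hB.small v w (field_iff.1 hv) (field_iff.1 hw),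
    fun v w hv hw => hB.high1 v w (field_iff.1 hv) (field_iff.1 hw),
    fun v w hv hw => hB.high2 v w (field_iff.1 hv) (field_iff.1 hw), ?_⟩
  intro ν η hν hη
  obtain ⟨T, u, h1, h2, h3, h4, h5, h6, h7, h8, h9, h10⟩ := hmain ν η hν hη
  have hLH := fun X => lh_iff (ν := ν) (α := α) (N := fun v w => A v w + B v w) (β := β) hrep
    (X := X)
  refine ⟨T, u, h1, h2, sol_iff.2 h3, trig_iff.2 h4, h5,
    fun T' v hT' hv hv0 => h6 T' v hT' (sol_iff.1 hv) hv0, h7, h8,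
    fun X hX hX0 => h9 X ((hLH X).1 hX) hX0, fun hν' hα'' t ht hc => ?_⟩
  obtain ⟨Y, hY, hinj⟩ := h10 hν' hα'' t ht
  have hsub : (fun θ => Y θ t) '' Icc (0 : ℝ) 1 ⊆
      {x | ∃ X, LerayHopf ν α (fun v w => A v w + B v w) X ∧ X 0 = hat (u 0) ∧ X t = x} := by
    rintro x ⟨θ, hθ, rfl⟩
    exact ⟨Y θ, (hLH _).2 (hY θ hθ).1, (hY θ hθ).2, rfl⟩
  have h11 : (Icc (0 : ℝ) 1).Countable :=
    Set.countable_of_injective_of_countable_image hinj (hc.mono hsub)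
  have h12 : ¬ (Icc (0 : ℝ) 1).Countable := by
    rw [← Cardinal.le_aleph0_iff_set_countable, not_le, Cardinal.mk_Icc_real one_pos]
    exact Cardinal.aleph0_lt_continuum
  exact h12 h11

end Pool.Agent.K1H54.NU
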