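import Pool.Agent.K1H54.LO.IterB

/-!
Non-uniqueness of Leray-Hopf solutions: what remains in the shells at the blow-up time.
-/

open Set Filter Topology MeasureTheory

set_option autoImplicit false

namespace Pool.Agent.K1H54.NU

open Pool.Agent.K1H54.LO

/-- The sequence of the stages of the cascade. -/
structure Stages (lam ε c₀ T : ℝ) (y z E : ℕ → ℝ → ℝ) (t a : ℕ → ℝ) : Prop where
  st : ∀ n, St lam ε c₀ T y z E n (t n) (a n)
  mono : ∀ n, t n ≤ t (n + 1)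
  dur : ∀ n, (t (n + 1) - t n) * (c₀ * lam ^ n * a n) ≤ 520 * lam
  amp : ∀ n, (1 - 1 / 10 ^ 6) * a n ≤ a (n + 1)
  lim : Tendsto t atTop (𝓝 T)

/-- In every shell a part of the energy remains, with `z n > 0`. -/
def S_RES : Prop := ∀ (lam ε c₀ T : ℝ) (d : ℕ → ℝ) (y z E : ℕ → ℝ → ℝ) (t a : ℕ → ℝ),
  Par lam ε c₀ d →
  (∀ n, d n ≤ Real.exp (-(2000 * lam)) * (c₀ * lam ^ n) * (1 - 1 / 10 ^ 5) ^ n) → 0 < T →
  Red lam ε c₀ d T y z E → Stages lam ε c₀ T y z E t a →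
  ∀ n, 1 ≤ n → ∃ s ∈ Ico 0 T, ∀ τ ∈ Ico s T,
    Real.exp (-(800 * lam)) * (1 - 1 / 10 ^ 5) ^ n ≤ z n τ

end Pool.Agent.K1H54.NU
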