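import Mathlib

/-!
Non-uniqueness of Leray-Hopf solutions: the systems of ordinary differential equations, and the
statements of the steps which concern them (Mathlib only).

`x (Sum.inl i)` are the amplitudes of the modes of the (forward) cascade: shells `sh i`, types
`ty i`; `Y n x`, `Z n x` are the amplitudes of the flat packets of the types `true`, `false`.
`x (Sum.inr j)` are the amplitudes of the modes of the inverse cascade, `P n x` is the amplitude of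
the flat packet of the shell `n` (only the type `true` is used).

  `Y n' = c (n-1) Z(n-1)² - c n Z n² - ε c n Y n Z n`
  `Z n' = c n Z n (Y n - Y (n+1)) + ε c n Y n² - r n P n²`
  `P n' = r n (P n Z n + P (n+1)²) - r (n-1) P n P (n-1)`        (plus dissipation)
-/

open Set Filter Topology MeasureTheory
open scoped ENNReal

set_option autoImplicit false

namespace Pool.Agent.K1H54.NU

/-- the flat unit vector of the shell `n` and the type `b` -/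
noncomputable def fl {I : Type} (sh : I → ℕ) (ty : I → Bool) (ρ : ℕ → ℕ) (b : Bool) (n : ℕ)
    (i : I) : ℝ := if sh i = n ∧ ty i = b then (√(ρ n : ℝ))⁻¹ else 0

/-- the amplitude of the flat packet -/
noncomputable def ap {I : Type} (sh : I → ℕ) (ty : I → Bool) (ρ : ℕ → ℕ) (b : Bool) (n : ℕ)
    (z : I → ℝ) : ℝ := ∑' i, fl sh ty ρ b n i * z i

/-- The data of the systems. -/
structure GS where
  I : Type
  J : Type
  sh : I → ℕ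
  ty : I → Bool
  ρ : ℕ → ℕ
  sh' : J → ℕ
  ty' : J → Bool
  ρ' : ℕ → ℕ
  c : ℕ → ℝ
  r : ℕ → ℝ
  ε : ℝ
  d : I → ℝ
  d' : J → ℝ
  fin : ∀ n b, {i | sh i = n ∧ ty i = b}.Finite
  card : ∀ n b, {i | sh i = n ∧ ty i = b}.ncard = ρ n
  pos : ∀ n, 0 < ρ n
  fin' : ∀ n b, {j | sh' j = n ∧ ty' j = b}.Finite
  card' : ∀ n b, {j | sh' j = n ∧ ty' j = b}.ncard = ρ' n
  pos' : ∀ n, 0 < ρ' n
  c0 : ∀ n, 0 ≤ c n
  r0 : ∀ n, 0 ≤ r n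
  ε0 : 0 ≤ ε
  d0 : ∀ i, 0 ≤ d i
  d0' : ∀ j, 0 ≤ d' j

namespace GS

variable (G : GS)

/-- the shell -/
def s : G.I ⊕ G.J → ℕ := Sum.elim G.sh G.sh'

/-- the dissipation -/
def D : G.I ⊕ G.J → ℝ := Sum.elim G.d G.d'

noncomputable def Y (n : ℕ) (x : G.I ⊕ G.J → ℝ) : ℝ :=
  ap G.sh G.ty G.ρ true n fun i => x (Sum.inl i)

noncomputable def Z (n : ℕ) (x : G.I ⊕ G.J → ℝ) : ℝ :=
  ap G.sh G.ty G.ρ false n fun i => x (Sum.inl i)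

noncomputable def P (n : ℕ) (x : G.I ⊕ G.J → ℝ) : ℝ :=
  ap G.sh' G.ty' G.ρ' true n fun j => x (Sum.inr j)

/-- the vector field, without the dissipation -/
noncomputable def vf (x : G.I ⊕ G.J → ℝ) : G.I ⊕ G.J → ℝ
  | Sum.inl i => (√(G.ρ (G.sh i) : ℝ))⁻¹ * (if G.ty i = true then
      (if G.sh i = 0 then 0 else G.c (G.sh i - 1) * G.Z (G.sh i - 1) x ^ 2)
        - G.c (G.sh i) * G.Z (G.sh i) x ^ 2
        - G.ε * G.c (G.sh i) * (G.Y (G.sh i) x * G.Z (G.sh i) x)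
      else G.c (G.sh i) * (G.Z (G.sh i) x * (G.Y (G.sh i) x - G.Y (G.sh i + 1) x))
        + G.ε * G.c (G.sh i) * G.Y (G.sh i) x ^ 2 - G.r (G.sh i) * G.P (G.sh i) x ^ 2)
  | Sum.inr j => (√(G.ρ' (G.sh' j) : ℝ))⁻¹ * (if G.ty' j = true then
      G.r (G.sh' j) * (G.P (G.sh' j) x * G.Z (G.sh' j) x + G.P (G.sh' j + 1) x ^ 2)
        - (if G.sh' j = 0 then 0
            else G.r (G.sh' j - 1) * (G.P (G.sh' j) x * G.P (G.sh' j - 1) x))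
      else 0)

/-- the energy -/
noncomputable def en (x : G.I ⊕ G.J → ℝ) : ℝ≥0∞ := ∑' i, ENNReal.ofReal (x i ^ 2)

/-- the dissipation of energy -/
noncomputable def ds (x : G.I ⊕ G.J → ℝ) : ℝ≥0∞ := ∑' i, ENNReal.ofReal (G.D i * x i ^ 2)

/-- Solutions of the system truncated to the shells `≤ N`, for all times `t ≥ 0`. -/
structure Tr (N : ℕ) (x : ℝ → G.I ⊕ G.J → ℝ) : Prop where
  out : ∀ t i, N < G.s i → x t i = 0
  ode : ∀ i, G.s i ≤ N → ∀ t, 0 ≤ t →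
    HasDerivWithinAt (fun τ => x τ i) (-(G.D i * x t i) + G.vf (x t) i) (Ici 0) t

/-- the energy inequality with the initial time `s` -/
def EI (x : ℝ → G.I ⊕ G.J → ℝ) (s : ℝ) : Prop :=
  ∀ t, s ≤ t → G.en (x t) + 2 * ∫⁻ τ in Ioc s t, G.ds (x τ) ≤ G.en (x s)

/-- Leray-Hopf solutions of the infinite system. -/
structure LH (x : ℝ → G.I ⊕ G.J → ℝ) : Prop where
  ode : ∀ i t, 0 ≤ t →
    HasDerivWithinAt (fun τ => x τ i) (-(G.D i * x t i) + G.vf (x t) i) (Ici 0) t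
  fin : G.en (x 0) ≠ ⊤
  e0 : G.EI x 0
  es : ∀ᵐ s ∂volume.restrict (Ioi 0), G.EI x s

/-- Conditions on the parameters in the shells `≥ n₁` (`M²` bounds the energy, `a n` is a lower
bound of `Z n` at the time `0`). -/
structure Fp (n₁ : ℕ) (M Λ : ℝ) (a : ℕ → ℝ) : Prop where
  M0 : 0 < M
  L2 : 2 ≤ Λ
  a0 : ∀ n, 0 < a n
  rp : ∀ n, 0 < G.r n
  mu : ∀ n, n₁ ≤ n → 4 * (G.r n * a n) ≤ G.r (n + 1) * a (n + 1)
  sg : ∀ n, n₁ ≤ n → 4 * Real.exp (-(Λ / 4)) * (G.r (n + 1) * a n) ≤ G.r n * a (n + 1)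
  dp : ∀ n, n₁ ≤ n → ∀ j, G.sh' j = n → G.d' j ≤ G.r n * a n / 100
  dr : ∀ n, n₁ ≤ n → ∀ i, G.sh i = n →
    (2 * G.c n * M ^ 2 + G.d i * M) * Λ ≤ G.r n * a n ^ 2 / 100

end GS

/-! ### Statements -/

/-- Truncated solutions exist for all times. -/
def S_TREX : Prop := ∀ (G : GS) (N : ℕ) (x₀ : G.I ⊕ G.J → ℝ), (∀ i, N < G.s i → x₀ i = 0) →
  ∃ x, x 0 = x₀ ∧ G.Tr N x

/-- The energy identity of the truncated solutions. -/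
def S_TREN : Prop := ∀ (G : GS) (N : ℕ) (x : ℝ → G.I ⊕ G.J → ℝ), G.Tr N x →
  ∀ s t, 0 ≤ s → s ≤ t → G.en (x t) + 2 * ∫⁻ τ in Ioc s t, G.ds (x τ) = G.en (x s)

/-- The theorem of Arzelà-Ascoli for countably many functions, with diagonal sequence. -/
def S_AA : Prop := ∀ (ι : Type) (f : ℕ → ι → ℝ → ℝ) (M : ι → ℝ), Countable ι →
  (∀ n i t, 0 ≤ t → |f n i t| ≤ M i) →
  (∀ n i s t, 0 ≤ s → 0 ≤ t → |f n i t - f n i s| ≤ M i * |t - s|) →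
  ∃ (φ : ℕ → ℕ) (g : ι → ℝ → ℝ), StrictMono φ ∧ ∀ i R,
    TendstoUniformlyOn (fun k t => f (φ k) i t) (g i) atTop (Icc 0 R)

/-- Limits of truncated solutions are Leray-Hopf solutions. -/
def S_CPT : Prop := ∀ (G : GS) (x₀ : G.I ⊕ G.J → ℝ) (X : ℕ → ℝ → G.I ⊕ G.J → ℝ),
  (∀ M, {i | G.D i ≤ M}.Finite) → (∀ k, G.Tr k (X k)) → G.en x₀ ≠ ⊤ →
  (∀ i, Tendsto (fun k => X k 0 i) atTop (𝓝 (x₀ i))) →
  Tendsto (fun k => G.en (X k 0)) atTop (𝓝 (G.en x₀)) →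
  ∃ (φ : ℕ → ℕ) (x : ℝ → G.I ⊕ G.J → ℝ), StrictMono φ ∧ x 0 = x₀ ∧ G.LH x ∧
    ∀ i R, TendstoUniformlyOn (fun k t => X (φ k) t i) (fun t => x t i) atTop (Icc 0 R)

/-- The inverse cascade. -/
def S_FIRE : Prop := ∀ (G : GS) (n₁ N : ℕ) (M Λ : ℝ) (a : ℕ → ℝ) (x : ℝ → G.I ⊕ G.J → ℝ),
  G.Fp n₁ M Λ a → n₁ < N → G.Tr N x → G.en (x 0) ≤ ENNReal.ofReal (M ^ 2) →
  (∀ n, n₁ ≤ n → n ≤ N → a n ≤ G.Z n (x 0)) →
  (∀ j, G.sh' j < N → x 0 (Sum.inr j) = 0) →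
  (∀ j, G.sh' j = N → x 0 (Sum.inr j) = fl G.sh' G.ty' G.ρ' true N j * (a N / 4)) →
  ∀ m, n₁ ≤ m → m < N → ∃ n, (n = m ∨ n = m + 1) ∧
    ∃ s ∈ Icc 0 (Λ / (G.r n * a n)), a n / 4 ≤ G.P n (x s)

/-- The amplitudes of a solution on `[0, T)` have limits at the time `T`. -/
def S_LIM : Prop := ∀ (G : GS) (T : ℝ) (x : ℝ → G.I ⊕ G.J → ℝ), 0 < T →
  (∀ i, ∀ t ∈ Ico 0 T,
    HasDerivWithinAt (fun τ => x τ i) (-(G.D i * x t i) + G.vf (x t) i) (Ico 0 T) t) →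
  G.en (x 0) ≠ ⊤ → (∀ t ∈ Ico 0 T, G.en (x t) ≤ G.en (x 0)) →
  ∃ y : G.I ⊕ G.J → ℝ, (∀ i, Tendsto (fun t => x t i) (𝓝[<] T) (𝓝 (y i))) ∧
    G.en y ≤ G.en (x 0) ∧ (∀ n, Tendsto (fun t => G.Z n (x t)) (𝓝[<] T) (𝓝 (G.Z n y)))

/-- Continuation of a solution on `[0, T)` by a Leray-Hopf solution. -/
def S_GLUE : Prop := ∀ (G : GS) (T : ℝ) (x w : ℝ → G.I ⊕ G.J → ℝ), 0 < T →
  (∀ i, ∀ t ∈ Ico 0 T,
    HasDerivWithinAt (fun τ => x τ i) (-(G.D i * x t i) + G.vf (x t) i) (Ico 0 T) t) →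
  G.en (x 0) ≠ ⊤ →
  (∀ s ∈ Ico 0 T, ∀ t ∈ Ico s T, G.en (x t) + 2 * ∫⁻ τ in Ioc s t, G.ds (x τ) ≤ G.en (x s)) →
  (∀ i, Tendsto (fun t => x t i) (𝓝[<] T) (𝓝 (w 0 i))) → G.LH w →
  G.LH (fun t => if t < T then x t else w (t - T))

/-- Non-uniqueness for the infinite system. -/
def S_POST : Prop := ∀ (G : GS) (n₁ : ℕ) (M Λ : ℝ) (a : ℕ → ℝ) (x₀ : G.I ⊕ G.J → ℝ),
  G.Fp n₁ M Λ a → Tendsto a atTop (𝓝 0) → (∀ M, {i | G.D i ≤ M}.Finite) →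
  (∀ n, a n ≤ M) → G.en x₀ ≤ ENNReal.ofReal (M ^ 2 / 2) →
  (∀ n, n₁ ≤ n → a n ≤ G.Z n x₀) → (∀ j, x₀ (Sum.inr j) = 0) →
  ∃ x w : ℝ → G.I ⊕ G.J → ℝ, x 0 = x₀ ∧ w 0 = x₀ ∧ G.LH x ∧ G.LH w ∧
    ∀ η : ℝ, 0 < η → ∃ t ∈ Ioo 0 η, x t ≠ w t

end Pool.Agent.K1H54.NU
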