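import Pool.Agent.K1H54.LO.Defs3
import Pool.Agent.K1H54.NU.Stm

/-!
Non-uniqueness of Leray-Hopf solutions: the modes, the trilinear form, and the statements of the
steps which concern them.
-/

open Set Filter Topology MeasureTheory
open scoped ENNReal

set_option autoImplicit false

namespace Pool.Agent.K1H54.NU

open Pool.Agent.Y5 Pool.Agent.Y5.D Pool.Agent.Y5.E Pool.Agent.K1H54.LO Pool.Agent.K1H54.L2

/-- the system with another dissipation -/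
def GS.wd (G : GS) (d : G.I → ℝ) (d' : G.J → ℝ) (h : ∀ i, 0 ≤ d i) (h' : ∀ j, 0 ≤ d' j) : GS :=
  { G with d := d, d' := d', d0 := h, d0' := h' }

/-- the gates of the inverse cascade -/
noncomputable def bR (r : ℕ → ℝ) (χ π : ℕ → Fam) (V W Z : Fam) : ℝ :=
  ∑' n : ℕ, r n * (
    pair V (π n) * (pair W (χ n) * pair Z (π n) - pair W (π n) * pair Z (χ n))
    + pair V (π (n + 1)) * (pair W (π (n + 1)) * pair Z (π n)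
      - pair W (π n) * pair Z (π (n + 1))))

/-- the perturbation -/
noncomputable def bN (G : GS) (lam c₀ : ℝ) (g : G.I → Fam) (g' : G.J → Fam) (V W Z : Fam) : ℝ :=
  bg (Sum.elim g g') V W Z
  + bT lam G.ε c₀ (fun n => Sy g (fv G.sh G.ty G.ρ true n))
      (fun n => Sy g (fv G.sh G.ty G.ρ false n)) V W Z
  + bR G.r (fun n => Sy g (fv G.sh G.ty G.ρ false n))
      (fun n => Sy g' (fv G.sh' G.ty' G.ρ' true n)) V W Z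

/-- Two systems of modes: `g` for the cascade, `g'` for the inverse cascade. -/
structure MM (G : GS) (g : G.I → Fam) (S : G.I → Finset Z3) (R : G.I → ℝ) (N : ℕ → ℝ)
    (g' : G.J → Fam) (S' : G.J → Finset Z3) (R' : G.J → ℝ) (N' : ℕ → ℝ)
    (s N₁ δ c₀ lam X : ℝ) : Prop where
  m1 : MS G.sh G.ty G.ρ g S R N s N₁ δ c₀ lam
  m2 : MS G.sh' G.ty' G.ρ' g' S' R' N' s N₁ δ c₀ lam
  dis : ∀ i j, Disjoint (S i) (S' j)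
  cc : ∀ n, G.c n = c₀ * lam ^ n
  X1 : 1 ≤ X
  n1 : ∀ n, N n ≤ N' n
  n2 : ∀ n, N' n ≤ X * N n
  n3 : ∀ n, N' (n + 1) ≤ X * N' n
  rp : ∀ n, 0 < G.r n
  rm : ∀ n, G.r n ≤ G.r (n + 1)
  rc : ∀ j, G.r (G.sh' j) ≤
    δ / X * N' (G.sh' j) ^ s * (√(G.ρ' (G.sh' j) : ℝ) * √((S' j).card : ℝ))
  rx : ∃ C : ℝ, ∀ i, G.r (G.sh i) ≤
    C * (N (G.sh i) * (√(G.ρ (G.sh i) : ℝ) * √((S i).card : ℝ)))

/-- Existence of the modes, and choice of the parameters. -/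
def S_GEO3 : Prop := ∀ (s α δ N₁ σ : ℝ), 1 / 2 < s → s < 1 → 0 ≤ α → 2 * α < s + 3 / 2 → 0 < δ →
  σ < s + 3 / 2 - 2 * α →
  ∃ (G : GS) (g : G.I → Fam) (S : G.I → Finset Z3) (R : G.I → ℝ) (N : ℕ → ℝ)
    (g' : G.J → Fam) (S' : G.J → Finset Z3) (R' : G.J → ℝ) (N' : ℕ → ℝ) (c₀ lam X r₀ : ℝ),
    10 ^ 13 ≤ lam ∧ G.ε = Real.exp (-(400 * lam)) ∧ 0 < r₀ ∧ (∀ n, G.r n = r₀ * (2 * lam) ^ n) ∧
    MM G g S R N g' S' R' N' s N₁ δ c₀ lam X ∧ MX G.ty G.ρ g lam y0 ∧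
    (∃ X₂, ∀ n, N' n ^ (2 * α) ≤ X₂ * (lam / 2) ^ n) ∧
    ∀ ν η : ℝ, 0 ≤ ν → 0 < η → ∃ (n₀ : ℕ) (a₀ : ℝ), 0 < a₀ ∧
      (∀ n : ℕ, ν * (2 * Real.pi * (2 * N (n₀ + n))) ^ (2 * α) ≤
        Real.exp (-(2000 * lam)) * (c₀ * lam ^ n₀ * a₀ * lam ^ n) * (1 - 1 / 10 ^ 5) ^ n) ∧
      (∀ i, G.sh i = n₀ → a₀ ^ 2 * (2 * Real.pi * R i) ^ (2 * σ) ≤ η) ∧
      1040 * lam / (c₀ * lam ^ n₀ * a₀) ≤ η

/-- The bounds of the perturbation. -/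
def S_OP3 : Prop := ∀ (G : GS) (g : G.I → Fam) (S : G.I → Finset Z3) (R : G.I → ℝ) (N : ℕ → ℝ)
  (g' : G.J → Fam) (S' : G.J → Finset Z3) (R' : G.J → ℝ) (N' : ℕ → ℝ) (s N₁ δ c₀ lam X : ℝ),
  1 / 2 < s → s < 1 → 0 < δ → 1 ≤ N₁ → G.ε ≤ 1 →
  MM G g S R N g' S' R' N' s N₁ (δ / 100) c₀ lam X →
  (∃ C, FPert s δ C (fun k => N₁ ≤ ‖vec k‖) (bN G lam c₀ g g')) ∧
  ∀ V W Z, OT V → Rap V → OT W → Rap W → OT Z → Rap Z →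
    |bN G lam c₀ g g' V W Z| ≤ δ * (A1 (s - 1) V * h1 W) * l2 Z

/-- Blow-up for the modes, and what remains in the shells. -/
def S_MOD3 : Prop := ∀ (I : Type) (sh : I → ℕ) (ty : I → Bool) (m : ℕ → ℕ) (di : I → ℝ)
  (d : ℕ → ℝ) (lam ε c₀ a₀ : ℝ), Shl sh ty m → (∀ i, 0 ≤ di i ∧ di i ≤ d (sh i)) →
  Par lam ε (c₀ * a₀) d →
  (∀ n, d n ≤ Real.exp (-(2000 * lam)) * (c₀ * a₀ * lam ^ n) * (1 - 1 / 10 ^ 5) ^ n) →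
  0 < c₀ → 0 < a₀ → ∃ (T : ℝ) (z : I → ℝ → ℝ), 0 < T ∧
    T ≤ 1040 * lam / (c₀ * a₀) ∧
    ASol2 di (fun i => lam ^ sh i) (ker sh ty m lam ε c₀) T z ∧
    Rapid (fun i => lam ^ sh i) T z ∧ (∀ i, z i 0 = a₀ * fv sh ty m true 0 i) ∧
    LO.Grow lam T (fun n t => am sh ty m true n (fun i => z i t) / a₀)
      (fun n t => En sh (fun i => z i t) n / a₀ ^ 2) ∧
    ∀ n, 1 ≤ n → ∃ s ∈ Ico 0 T, ∀ τ ∈ Ico s T,
      a₀ * (Real.exp (-(800 * lam)) * (1 - 1 / 10 ^ 5) ^ n) ≤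
        am sh ty m false n (fun i => z i τ)

/-- extension by zero of amplitudes in the shells `≥ n₀` of the cascade -/
noncomputable def ext {G : GS} (n₀ : ℕ) (z : Sub G.sh n₀ → ℝ) : G.I ⊕ G.J → ℝ
  | Sum.inl i => if h : n₀ ≤ G.sh i then z ⟨i, h⟩ else 0
  | Sum.inr _ => 0

/-- The solution of `S_MOD3` (in the shells `≥ n₀`) is a solution of the system `G`. -/
def S_EXA : Prop := ∀ (G : GS) (lam c₀ : ℝ) (n₀ : ℕ) (T : ℝ) (z : Sub G.sh n₀ → ℝ → ℝ),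
  1 < lam → 0 < c₀ → (∀ n, G.c n = c₀ * lam ^ n) → 0 < T →
  ASol2 (fun i : Sub G.sh n₀ => G.d i) (fun i => lam ^ (G.sh i - n₀))
    (ker (fun i : Sub G.sh n₀ => G.sh i - n₀) (fun i => G.ty i) (fun n => G.ρ (n₀ + n)) lam G.ε
      (c₀ * lam ^ n₀)) T z →
  ∀ i, ∀ t ∈ Ico 0 T, HasDerivWithinAt (fun τ => ext n₀ (fun a => z a τ) i)
    (-(G.D i * ext n₀ (fun a => z a t) i) + G.vf (ext n₀ fun a => z a t) i) (Ico 0 T) t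

/-- The solution of `S_MOD3` gives a smooth solution of the equations with the form `bN`. -/
def S_EXB : Prop := ∀ (G : GS) (g : G.I → Fam) (S : G.I → Finset Z3) (R : G.I → ℝ) (N : ℕ → ℝ)
  (g' : G.J → Fam) (S' : G.J → Finset Z3) (R' : G.J → ℝ) (N' : ℕ → ℝ) (s N₁ δ c₀ lam X : ℝ)
  (D : Z3 → ℝ) (n₀ : ℕ) (T : ℝ) (z : Sub G.sh n₀ → ℝ → ℝ), 0 < δ → 1 ≤ N₁ → G.ε ≤ 1 →
  MM G g S R N g' S' R' N' s N₁ δ c₀ lam X → Sym D → (∀ i, ∀ k ∈ S i, D k = G.d i) → 0 < T →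
  ASol2 (fun i : Sub G.sh n₀ => G.d i) (fun i => lam ^ (G.sh i - n₀))
    (ker (fun i : Sub G.sh n₀ => G.sh i - n₀) (fun i => G.ty i) (fun n => G.ρ (n₀ + n)) lam G.ε
      (c₀ * lam ^ n₀)) T z →
  Rapid (fun i : Sub G.sh n₀ => lam ^ (G.sh i - n₀)) T z →
  FSolD D (bN G lam c₀ g g') T
    (fun t => Sy (Sum.elim g g') (ext (G := G) n₀ fun a => z a t))

/-- The energy inequality before the blow-up time. -/
def S_EXC : Prop := ∀ (G : GS) (lam c₀ : ℝ) (n₀ : ℕ) (T : ℝ) (z : Sub G.sh n₀ → ℝ → ℝ),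
  1 < lam → 0 < c₀ → (∀ n, G.c n = c₀ * lam ^ n) → (∃ X : ℝ, ∀ i, G.d i ≤ X * lam ^ (3 * G.sh i)) →
  0 < T →
  ASol2 (fun i : Sub G.sh n₀ => G.d i) (fun i => lam ^ (G.sh i - n₀))
    (ker (fun i : Sub G.sh n₀ => G.sh i - n₀) (fun i => G.ty i) (fun n => G.ρ (n₀ + n)) lam G.ε
      (c₀ * lam ^ n₀)) T z →
  Rapid (fun i : Sub G.sh n₀ => lam ^ (G.sh i - n₀)) T z →
  G.en (ext n₀ fun a => z a 0) ≠ ⊤ ∧
  ∀ s ∈ Ico 0 T, ∀ t ∈ Ico s T,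
    G.en (ext n₀ fun a => z a t) + 2 * ∫⁻ τ in Ioc s t, G.ds (ext n₀ fun a => z a τ) ≤
      G.en (ext n₀ fun a => z a s)

/-- truncation to the frequencies `|k| ≤ K` -/
noncomputable def trn (K : ℝ) (V : Fam) : Fam := fun k => if ‖vec k‖ ≤ K then V k else 0

/-- the energy inequality with the initial time `s` -/
def FEI (D : Z3 → ℝ) (V : ℝ → Fam) (s : ℝ) : Prop :=
  ∀ t, s ≤ t → ∑' k, ‖V t k‖ₑ ^ 2 +
    2 * ∫⁻ τ in Ioc s t, ∑' k, ENNReal.ofReal (D k) * ‖V τ k‖ₑ ^ 2 ≤ ∑' k, ‖V s k‖ₑ ^ 2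

/-- Leray-Hopf solutions in terms of the coefficients. -/
structure FLH (D : Z3 → ℝ) (β : Fam → Fam → Fam → ℝ) (V : ℝ → Fam) : Prop where
  ot : ∀ t, 0 ≤ t → OT (V t)
  fin : ∑' k, ‖V 0 k‖ₑ ^ 2 ≠ ⊤
  eqn : ∀ Z, OT Z → {k | Z k ≠ 0}.Finite → ∀ t, 0 ≤ t → ∃ L : ℝ,
    Tendsto (fun K : ℕ => bil (trn K (V t)) (trn K (V t)) Z + β (trn K (V t)) (trn K (V t)) Z)
      atTop (𝓝 L) ∧
    HasDerivWithinAt (fun τ => pair (V τ) Z) (-lpD D (V t) Z + L) (Ici 0) t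
  e0 : FEI D V 0
  es : ∀ᵐ s ∂volume.restrict (Ioi 0), FEI D V s

/-- From Leray-Hopf solutions for the modes to Leray-Hopf solutions of the equations. -/
def S_WEAK : Prop := ∀ (G : GS) (g : G.I → Fam) (S : G.I → Finset Z3) (R : G.I → ℝ) (N : ℕ → ℝ)
  (g' : G.J → Fam) (S' : G.J → Finset Z3) (R' : G.J → ℝ) (N' : ℕ → ℝ) (s N₁ δ c₀ lam X : ℝ)
  (D : Z3 → ℝ) (x : ℝ → G.I ⊕ G.J → ℝ), 0 < δ → 1 ≤ N₁ → G.ε ≤ 1 →
  MM G g S R N g' S' R' N' s N₁ δ c₀ lam X → (∀ k, 0 ≤ D k) → (∀ i, ∀ k ∈ S i, D k = G.d i) →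
  (∀ j, ∀ k ∈ S' j, D k = G.d' j) → G.LH x →
  FLH D (bN G lam c₀ g g') (fun t => Sy (Sum.elim g g') (x t))

end Pool.Agent.K1H54.NU
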