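import Pool.Agent.K1H54.LO.Mod
import Pool.Agent.K1H54.NU.It
import Pool.Agent.K1H54.NU.Stm2

/-! Blow-up for the modes, and what remains in the shells (`S_MOD3`). -/

open Set Topology MeasureTheory
open Filter hiding ker

set_option autoImplicit false

namespace Pool.Agent.K1H54.NU

open Pool.Agent.Y5 Pool.Agent.Y5.D Pool.Agent.Y5.E Pool.Agent.K1H21.LO
open Pool.Agent.K1H54.LO hiding Grow

theorem t_MOD3 (hRES : S_RES) : S_MOD3 := by
  intro I sh ty m di d lam ε c₀ a₀ hS hd hP hds hc0 ha0
  have hlam : 1 < lam := lt_of_lt_of_le (by norm_num) hP.lam_big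
  have hε0 : 0 ≤ ε := by rw [hP.eps]; exact (Real.exp_pos _).le
  have hε1 : ε ≤ 1 := by
    rw [hP.eps, Real.exp_le_one_iff]
    linarith
  have hc := hP.c0
  have hadm := t_ADM I sh ty m di lam ε (c₀ * a₀) hS (fun i => (hd i).1) hlam hc hε0 hε1
  have hdn : ∀ n, d n ≤ c₀ * a₀ * lam ^ n := by
    intro n
    refine (hP.d_small n).trans ?_
    have h1 : Real.exp (-(700 * lam)) ≤ 1 := Real.exp_le_one_iff.2 (by linarith)
    have h2 : (1 - 1 / 10 ^ 5 : ℝ) ^ n ≤ 1 := pow_le_one₀ (by norm_num) (by norm_num)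
    have h3 : 0 < c₀ * a₀ * lam ^ n := by positivity
    have h4 := Real.exp_pos (-(700 * lam))
    calc Real.exp (-(700 * lam)) * (c₀ * a₀ * lam ^ n) * (1 - 1 / 10 ^ 5) ^ n
        ≤ Real.exp (-(700 * lam)) * (c₀ * a₀ * lam ^ n) * 1 := by gcongr
      _ ≤ 1 * (c₀ * a₀ * lam ^ n) * 1 := by gcongr
      _ = _ := by ring
  have hz0 : ∀ k : ℕ, Sk (fun i => lam ^ sh i) k (fv sh ty m true 0) := by
    intro k
    unfold Sk
    refine summable_of_hasFiniteSupport ((hS.fin 0 true).subset ?_)
    intro i hi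
    simp only [Function.mem_support, ne_eq, fv] at hi
    by_contra hcon
    simp only [Set.mem_ofPred_eq] at hcon
    rw [if_neg hcon] at hi
    simp at hi
  obtain ⟨z, hzi, hz⟩ := (Pool.Agent.Y37.NE.t_ABS2 I di (fun i => lam ^ sh i)
    (ker sh ty m lam ε (c₀ * a₀)) hadm).2 _ hz0
  have hred : ∀ T, 0 < T → ASol2 di (fun i => lam ^ sh i) (ker sh ty m lam ε (c₀ * a₀)) T z →
      Rapid (fun i => lam ^ sh i) T z → Red lam ε (c₀ * a₀) d T
        (fun n t => am sh ty m true n (fun i => z i t))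
        (fun n t => am sh ty m false n (fun i => z i t)) (fun n t => En sh (fun i => z i t) n) :=
    fun T hT h1 h2 => t_RED I sh ty m di d lam ε (c₀ * a₀) hS hd hlam hc hε0 hε1 hdn T z hT h1 h2 hzi
  rcases hz with hz | ⟨T, hT, hz1, hz2, hz3⟩
  · exfalso
    have hpos : 0 < 1040 * lam / (c₀ * a₀) + 1 := by positivity
    have h1 := (ode_main hP hpos (hred _ hpos (hz _).1 (hz _).2)).1
    linarith
  · have hR := hred T hT hz1 hz2
    obtain ⟨hT1, hG⟩ := ode_main2 hP hT hR
    obtain ⟨⟨tt, aa, hStg⟩, hGrow⟩ : (∃ t a, Stages lam ε (c₀ * a₀) T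
        (fun n t => am sh ty m true n (fun i => z i t))
        (fun n t => am sh ty m false n (fun i => z i t)) (fun n t => En sh (fun i => z i t) n) t a) ∧
        LO.Grow lam T (fun n t => am sh ty m true n (fun i => z i t))
        (fun n t => En sh (fun i => z i t) n) := by
      rcases hG with hG | ⟨n₀, K₀, s, hs, hG⟩
      · exact hG
      · exfalso
        apply hz3
        obtain ⟨M₁, hM₁⟩ := hz2 1 s hs.2
        refine ⟨max M₁ (2 * ((lam ^ n₀) ^ 2 * ((1 + K₀ ^ 2) * 4 ^ n₀))), fun t ht => ?_⟩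
        rcases le_total t s with hts | hts
        · exact ((hM₁ t ⟨ht.1, hts⟩).2).trans (le_max_left _ _)
        · refine le_trans ?_ (le_max_right _ _)
          obtain ⟨M₂, hM₂⟩ := hz2 1 t ht.2
          have hSk := (hM₂ t ⟨ht.1, le_rfl⟩).1
          refine nk_tail hS hlam hSk ?_ (hG t ⟨hts, ht.2⟩)
          have h1 := dec0 hR le_rfl ht.1 ht.2
          rw [hR.init_E, Real.sqrt_one] at h1
          have h2 := hR.nonneg 0 t ht
          exact (Real.sqrt_le_one (x := En sh (fun i => z i t) 0)).1 h1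
    -- scaling
    refine ⟨T, fun i t => a₀ * z i t, hT, hT1, ⟨fun i t ht => ?_, fun T' hT' => ?_⟩, fun k T' hT' => ?_,
      fun i => by simp only [hzi i], ?_, ?_⟩
    · refine ((hz1.deriv i t ht).const_mul a₀).congr_deriv ?_
      rw [bl_mul]
      ring
    · obtain ⟨M, hM⟩ := hz2 1 T' hT'
      refine ⟨a₀ ^ 2 * M, fun t ht => ?_⟩
      obtain ⟨h1, h2⟩ := hM t ht
      have e : ∀ i, ((lam ^ sh i) ^ 1 * (a₀ * z i t)) ^ 2 =
          a₀ ^ 2 * ((lam ^ sh i) ^ 1 * z i t) ^ 2 := fun i => by ring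
      refine ⟨?_, ?_⟩
      · unfold Sk
        simp only [e]
        exact Summable.mul_left _ h1
      · unfold nk
        simp only [e]
        rw [tsum_mul_left]
        exact mul_le_mul_of_nonneg_left h2 (by positivity)
    · obtain ⟨M, hM⟩ := hz2 k T' hT'
      refine ⟨a₀ ^ 2 * M, fun t ht => ?_⟩
      obtain ⟨h1, h2⟩ := hM t ht
      have e : ∀ i, ((lam ^ sh i) ^ k * (a₀ * z i t)) ^ 2 =
          a₀ ^ 2 * ((lam ^ sh i) ^ k * z i t) ^ 2 := fun i => by ring
      refine ⟨?_, ?_⟩
      · unfold Sk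
        simp only [e]
        exact Summable.mul_left _ h1
      · unfold nk
        simp only [e]
        rw [tsum_mul_left]
        exact mul_le_mul_of_nonneg_left h2 (by positivity)
    · have e1 : ∀ n t, am sh ty m true n (fun i => a₀ * z i t) / a₀ =
          am sh ty m true n (fun i => z i t) := by
        intro n t
        unfold am
        rw [div_eq_iff ha0.ne', ← tsum_mul_right]
        exact tsum_congr fun i => by ring
      have e2 : ∀ n t, En sh (fun i => a₀ * z i t) n / a₀ ^ 2 = En sh (fun i => z i t) n := by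
        intro n t
        unfold En
        rw [div_eq_iff (by positivity), ← tsum_mul_right]
        refine tsum_congr fun i => ?_
        split_ifs
        · ring
        · ring
      simp only [e1, e2]
      exact hGrow
    · intro n hn
      obtain ⟨s, hs, hs2⟩ := hRES lam ε (c₀ * a₀) T d _ _ _ tt aa hP hds hT hR hStg n hn
      refine ⟨s, hs, fun τ hτ => ?_⟩
      have e1 : am sh ty m false n (fun i => a₀ * z i τ) =
          a₀ * am sh ty m false n (fun i => z i τ) := by
        unfold am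
        rw [← tsum_mul_left]
        exact tsum_congr fun i => by ring
      rw [e1]
      exact mul_le_mul_of_nonneg_left (hs2 τ hτ) ha0.le

end Pool.Agent.K1H54.NU
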