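import Pool.Agent.K1H54.NU.Stm

/-!
A continuum of Leray-Hopf solutions at every time (Mathlib only).
-/

open Set Filter Topology MeasureTheory
open scoped ENNReal

set_option autoImplicit false

namespace Pool.Agent.K1H54.NU

/-- The mean of damped quantities with a common source stays positive. -/
def S_VOL : Prop := ∀ (ι : Type) (_ : Fintype ι) (_ : Nonempty ι) (d : ι → ℝ) (q : ι → ℝ → ℝ)
  (P b g : ℝ → ℝ) (C : ℝ), (∀ j, 0 ≤ d j ∧ d j ≤ C) → (∀ t, 0 ≤ t → |b t| ≤ C) →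
  (∀ t, 0 ≤ t → 0 ≤ g t) → ContinuousOn b (Ici 0) → ContinuousOn g (Ici 0) →
  (∀ t, P t = (∑ j, q j t) / Fintype.card ι) →
  (∀ j t, 0 ≤ t → HasDerivWithinAt (q j) (-(d j * q j t) + (b t * P t + g t)) (Ici 0) t) →
  (∀ j, q j 0 = 0) →
  ∀ s t, 0 ≤ s → s ≤ t → 0 ≤ P s ∧ Real.exp (-(2 * C * (t - s))) * P s ≤ P t

/-- The packets of the inverse cascade do not vanish again (truncated system). -/
def S_PP : Prop := ∀ (G : GS) (N n : ℕ) (M C : ℝ) (x : ℝ → G.I ⊕ G.J → ℝ), G.Tr N x → n ≤ N →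
  0 ≤ M → G.en (x 0) ≤ ENNReal.ofReal (M ^ 2) → (∀ j, G.sh' j = n → x 0 (Sum.inr j) = 0) →
  (∀ j, G.sh' j = n → G.d' j ≤ C) → (G.r n + G.r (n - 1)) * M ≤ C →
  ∀ s t, 0 ≤ s → s ≤ t →
    0 ≤ G.P n (x s) ∧ Real.exp (-(2 * C * (t - s))) * G.P n (x s) ≤ G.P n (x t)

/-- A continuum of Leray-Hopf solutions for the infinite system, at every time. -/
def S_POSE : Prop := ∀ (G : GS) (n₁ : ℕ) (M Λ : ℝ) (a : ℕ → ℝ) (x₀ : G.I ⊕ G.J → ℝ),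
  G.Fp n₁ M Λ a → Tendsto a atTop (𝓝 0) → (∀ M, {i | G.D i ≤ M}.Finite) →
  (∀ n, a n ≤ M) → G.en x₀ ≤ ENNReal.ofReal (M ^ 2 / 2) →
  (∀ n, n₁ ≤ n → a n ≤ G.Z n x₀) → (∀ j, x₀ (Sum.inr j) = 0) →
  ∀ t : ℝ, 0 < t → ∃ w : ℝ → ℝ → G.I ⊕ G.J → ℝ,
    (∀ θ ∈ Icc (0 : ℝ) 1, w θ 0 = x₀ ∧ G.LH (w θ)) ∧ InjOn (fun θ => w θ t) (Icc 0 1)

end Pool.Agent.K1H54.NU
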