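import Pool.Agent.K1H54.NU.Par
import Pool.Agent.K1H54.NU.Mod3
import Pool.Agent.K1H60.NU.Exab
import Pool.Agent.K1H99.NU.Exc
import Pool.Agent.K1H39.NU.Glue
import Pool.Agent.K1H66.NU.Res
import Pool.Agent.K1H66.NU.AA
import Pool.Agent.K1H68.NU.CPT
import Pool.Agent.K1H63.NU.TREN
import Pool.Agent.K1H54.NU.Stm5

/-!
Non-uniqueness: the solutions of the systems of ordinary differential equations (a continuum of
Leray-Hopf solutions).
-/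

open Set Topology MeasureTheory
open Filter hiding ker
open scoped ENNReal

set_option autoImplicit false

namespace Pool.Agent.K1H54.NU

open Pool.Agent.Y5 Pool.Agent.Y5.D Pool.Agent.Y5.E Pool.Agent.K1H54.LO Pool.Agent.K1H54.L2

theorem dyn3 (hPOSE : S_POSE) {G : GS} {g : G.I → Fam} {S : G.I → Finset Z3} {R : G.I → ℝ} {N : ℕ → ℝ}
    {g' : G.J → Fam} {S' : G.J → Finset Z3} {R' : G.J → ℝ} {N' : ℕ → ℝ}
    {s N₁ δ c₀ lam X r₀ α ν a₀ : ℝ} {n₀ : ℕ}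
    (hMM : MM G g S R N g' S' R' N' s N₁ δ c₀ lam X) (hlam : 10 ^ 13 ≤ lam)
    (hε : G.ε = Real.exp (-(400 * lam))) (hr₀ : 0 < r₀) (hr : ∀ n, G.r n = r₀ * (2 * lam) ^ n)
    (hX₂ : ∃ X₂, ∀ n, N' n ^ (2 * α) ≤ X₂ * (lam / 2) ^ n) (hα : 0 ≤ α)
    (hν : 0 ≤ ν) (hd : ∀ i, G.d i = dr ν α (R i))
    (hd' : ∀ j, G.d' j = dr ν α (R' j)) (ha₀ : 0 < a₀)
    (hp : ∀ n : ℕ, ν * (2 * Real.pi * (2 * N (n₀ + n))) ^ (2 * α) ≤
      Real.exp (-(2000 * lam)) * (c₀ * lam ^ n₀ * a₀ * lam ^ n) * (1 - 1 / 10 ^ 5) ^ n) :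
    ∃ (T : ℝ) (z : Sub G.sh n₀ → ℝ → ℝ), 0 < T ∧ T ≤ 1040 * lam / (c₀ * lam ^ n₀ * a₀) ∧
      ASol2 (fun i : Sub G.sh n₀ => G.d i) (fun i => lam ^ (G.sh i - n₀))
        (ker (fun i : Sub G.sh n₀ => G.sh i - n₀) (fun i => G.ty i) (fun n => G.ρ (n₀ + n)) lam G.ε
          (c₀ * lam ^ n₀)) T z ∧
      Rapid (fun i : Sub G.sh n₀ => lam ^ (G.sh i - n₀)) T z ∧
      (∀ i, z i 0 = a₀ * fv (fun i : Sub G.sh n₀ => G.sh i - n₀) (fun i => G.ty i)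
        (fun n => G.ρ (n₀ + n)) true 0 i) ∧
      LO.Grow lam T
        (fun n t => am (fun i : Sub G.sh n₀ => G.sh i - n₀) (fun i => G.ty i)
          (fun n => G.ρ (n₀ + n)) true n (fun i => z i t) / a₀)
        (fun n t => En (fun i : Sub G.sh n₀ => G.sh i - n₀) (fun i => z i t) n / a₀ ^ 2) ∧
      (0 < ν → 0 < α → ∀ t : ℝ, T < t → ∃ Y : ℝ → ℝ → G.I ⊕ G.J → ℝ,
        (∀ θ ∈ Icc (0 : ℝ) 1, G.LH (Y θ) ∧ ∀ t ∈ Ico 0 T, Y θ t = ext n₀ (fun a => z a t)) ∧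
        InjOn (fun θ => Y θ t) (Icc 0 1)) := by
  have hpi := Real.pi_gt_three
  have hl : 0 < lam := lt_of_lt_of_le (by norm_num) hlam
  have hl1 : 1 < lam := lt_of_lt_of_le (by norm_num) hlam
  have hMS := hMM.m1
  have hMS2 := hMM.m2
  have hc₀ := hMS.c0
  have hMS' := Pool.Agent.K1H30.OP2.ms_sub (n₀ := n₀) hMS
  have hc₁ : 0 < c₀ * lam ^ n₀ := hMS'.c0
  have hRpos : ∀ i, 0 ≤ R i := fun i =>
    (zero_le_one.trans (hMS.N1 (G.sh i))).trans (hMS.size i).1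
  have hRpos' : ∀ j, 0 ≤ R' j := fun i =>
    (zero_le_one.trans (hMS2.N1 (G.sh' i))).trans (hMS2.size i).1
  -- the solution before the blow-up time
  have hPar : Par lam G.ε (c₀ * lam ^ n₀ * a₀)
      (fun n => ν * (2 * Real.pi * (2 * N (n₀ + n))) ^ (2 * α)) := by
    refine ⟨hlam, hε, mul_pos hc₁ ha₀, fun n => ?_, fun n => (hp n).trans ?_⟩
    · have := hMS.N1 (n₀ + n)
      positivity
    · have h1 : Real.exp (-(2000 * lam)) ≤ Real.exp (-(700 * lam)) :=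
        Real.exp_le_exp.2 (by linarith)
      have h2 : 0 ≤ c₀ * lam ^ n₀ * a₀ * lam ^ n := by positivity
      gcongr
  obtain ⟨T, z, hT, hTle, hA, hRa, hz0, hGrow, hres⟩ := t_MOD3 Pool.Agent.K1H66.NU.t_RES
    (Sub G.sh n₀) (fun i => G.sh i - n₀) (fun i => G.ty i) (fun n => G.ρ (n₀ + n))
    (fun i => G.d i) (fun n => ν * (2 * Real.pi * (2 * N (n₀ + n))) ^ (2 * α))
    lam G.ε (c₀ * lam ^ n₀) a₀ hMS'.shl (fun i => ⟨G.d0 i, by
      have h1 := (hMS'.size i).2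
      have h2 := hRpos i
      rw [hd]
      unfold dr
      refine mul_le_mul_of_nonneg_left ?_ hν
      apply Real.rpow_le_rpow (by positivity) _ (by positivity)
      gcongr⟩)
    hPar hp hc₁ ha₀
  refine ⟨T, z, hT, hTle, hA, hRa, hz0, hGrow, fun hν hα t₁ ht₁ => ?_⟩
  set x : ℝ → G.I ⊕ G.J → ℝ := fun t => ext n₀ (fun a => z a t) with hx
  have hode := Pool.Agent.K1H60.NU.t_EXA G lam c₀ n₀ T z hl1 hc₀ hMM.cc hT hA
  obtain ⟨X₂, hX₂⟩ := hX₂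
  -- bounds of the dissipation
  have hN'0 : ∀ n, 0 < N' n := fun n => zero_lt_one.trans_le (hMS2.N1 n)
  have hN0 : ∀ n, 0 < N n := fun n => zero_lt_one.trans_le (hMS.N1 n)
  set X₃ : ℝ := ν * (4 * Real.pi) ^ (2 * α) * X₂ with hX₃
  have hdb : ∀ n (r : ℝ), 0 ≤ r → r ≤ 2 * N' n → dr ν α r ≤ X₃ * (lam / 2) ^ n := by
    intro n r hr0 hr1
    have h0 := hN'0 n
    unfold dr
    calc ν * (2 * Real.pi * r) ^ (2 * α) ≤ ν * (2 * Real.pi * (2 * N' n)) ^ (2 * α) := by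
          refine mul_le_mul_of_nonneg_left ?_ hν.le
          apply Real.rpow_le_rpow (by positivity) _ (by positivity)
          gcongr
      _ = ν * ((4 * Real.pi) ^ (2 * α) * N' n ^ (2 * α)) := by
          rw [← Real.mul_rpow (by positivity) h0.le]
          congr 2
          ring
      _ ≤ ν * ((4 * Real.pi) ^ (2 * α) * (X₂ * (lam / 2) ^ n)) := by
          have := hX₂ n
          gcongr
      _ = _ := by rw [hX₃]; ring
  have hdd : ∀ i, G.d i ≤ X₃ * (lam / 2) ^ G.sh i := fun i => by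
    rw [hd]
    exact hdb _ _ (hRpos i) ((hMS.size i).2.trans (by have := hMM.n1 (G.sh i); linarith))
  have hdd' : ∀ j, G.d' j ≤ X₃ * (lam / 2) ^ G.sh' j := fun j => by
    rw [hd']
    exact hdb _ _ (hRpos' j) (hMS2.size j).2
  obtain ⟨hen, hEI⟩ := Pool.Agent.K1H99.NU.t_EXC Pool.Agent.K1H60.NU.t_EXA G lam c₀ n₀ T z hl1 hc₀
    hMM.cc ⟨|X₃|, fun i => (hdd i).trans (by
      have h1 : (lam / 2) ^ G.sh i ≤ lam ^ (3 * G.sh i) := by
        calc (lam / 2) ^ G.sh i ≤ lam ^ G.sh i := pow_le_pow_left₀ (by positivity) (by linarith) _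
          _ ≤ _ := pow_le_pow_right₀ hl1.le (by omega)
      calc X₃ * (lam / 2) ^ G.sh i ≤ |X₃| * (lam / 2) ^ G.sh i :=
            mul_le_mul_of_nonneg_right (le_abs_self _) (by positivity)
        _ ≤ _ := mul_le_mul_of_nonneg_left h1 (abs_nonneg _))⟩ hT hA hRa
  have h0T : (0 : ℝ) ∈ Ico 0 T := ⟨le_rfl, hT⟩
  -- the limit at the blow-up time
  obtain ⟨y, hy1, hy2, hy3⟩ := Pool.Agent.K1H39.NU.t_LIM G T x hT hode hen (fun t ht =>
    le_trans le_self_add (hEI 0 h0T t ht))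
  -- the reservoir
  set A₀ : ℝ := a₀ * Real.exp (-(800 * lam)) * ((1 - 1 / 10 ^ 5) ^ n₀)⁻¹ with hA₀
  have hA₀0 : 0 < A₀ := by
    rw [hA₀]
    have h1 : (0 : ℝ) < (1 - 1 / 10 ^ 5) ^ n₀ := by positivity
    positivity
  have hZ : ∀ n, n₀ + 1 ≤ n → A₀ * (1 - 1 / 10 ^ 5) ^ n ≤ G.Z n y := by
    intro n hn
    obtain ⟨m, rfl⟩ := Nat.exists_eq_add_of_le (by omega : n₀ ≤ n)
    obtain ⟨t₀, ht₀, ht₁⟩ := hres m (by omega)
    refine ge_of_tendsto (hy3 (n₀ + m)) ?_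
    have h1 : Ioo t₀ T ∈ 𝓝[<] T := Ioo_mem_nhdsLT ht₀.2
    filter_upwards [h1] with t ht
    have h2 := ht₁ t ⟨ht.1.le, ht.2⟩
    rw [hx, Pool.Agent.K1H60.NU.Z_eq]
    refine le_trans (le_of_eq ?_) h2
    rw [hA₀, pow_add]
    have h3 : ((1 - 1 / 10 ^ 5 : ℝ) ^ n₀) ≠ 0 := by positivity
    field_simp
  -- the parameters
  set E₀ : ℝ := (G.en (x 0)).toReal with hE₀
  set M : ℝ := 1 + A₀ + 2 * E₀ with hM
  have hE₀0 : 0 ≤ E₀ := ENNReal.toReal_nonneg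
  have hM0 : 0 < M := by positivity
  obtain ⟨n₁, Λ, hFp⟩ := ex_fp G hlam hMM.cc hr hr₀ hA₀0 hdd' hdd hM0
  have hFp' : G.Fp (max n₁ (n₀ + 1)) M Λ (fun n => A₀ * (1 - 1 / 10 ^ 5) ^ n) :=
    ⟨hFp.M0, hFp.L2, hFp.a0, hFp.rp, fun n hn => hFp.mu n ((le_max_left _ _).trans hn),
      fun n hn => hFp.sg n ((le_max_left _ _).trans hn),
      fun n hn => hFp.dp n ((le_max_left _ _).trans hn),
      fun n hn => hFp.dr n ((le_max_left _ _).trans hn)⟩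
  have hat : Tendsto (fun n : ℕ => A₀ * (1 - 1 / 10 ^ 5 : ℝ) ^ n) atTop (𝓝 0) := by
    have h1 := (tendsto_pow_atTop_nhds_zero_of_lt_one (r := (1 - 1 / 10 ^ 5 : ℝ)) (by norm_num)
      (by norm_num)).const_mul A₀
    simpa using h1
  have hDf : ∀ K, {i | G.D i ≤ K}.Finite := by
    intro K
    obtain ⟨K', hK'⟩ := dr_fin (K := K) hν hα
    have h1 := (rad_fin hMS K').image (Sum.inl : G.I → G.I ⊕ G.J)
    have h2 := (rad_fin hMS2 K').image (Sum.inr : G.J → G.I ⊕ G.J)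
    refine (h1.union h2).subset ?_
    rintro (i | j) hi
    · refine Or.inl ⟨i, hK' _ (hRpos i) ?_, rfl⟩
      rw [← hd]
      exact hi
    · refine Or.inr ⟨j, hK' _ (hRpos' j) ?_, rfl⟩
      rw [← hd']
      exact hi
  have haM : ∀ n : ℕ, A₀ * (1 - 1 / 10 ^ 5 : ℝ) ^ n ≤ M := by
    intro n
    have h1 : (1 - 1 / 10 ^ 5 : ℝ) ^ n ≤ 1 := pow_le_one₀ (by norm_num) (by norm_num)
    have h2 : A₀ * (1 - 1 / 10 ^ 5 : ℝ) ^ n ≤ A₀ * 1 := mul_le_mul_of_nonneg_left h1 hA₀0.le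
    linarith
  have hyM : G.en y ≤ ENNReal.ofReal (M ^ 2 / 2) := by
    refine hy2.trans ?_
    rw [← ENNReal.ofReal_toReal hen]
    refine ENNReal.ofReal_le_ofReal ?_
    have h1 : (G.en (x 0)).toReal = E₀ := rfl
    change (G.en (x 0)).toReal ≤ _
    rw [h1, hM]
    nlinarith
  have hyP : ∀ j, y (Sum.inr j) = 0 := fun j => by
    have h1 := hy1 (Sum.inr j)
    refine tendsto_nhds_unique h1 ?_
    exact tendsto_const_nhds
  obtain ⟨w, hw, hinj⟩ := hPOSE G (max n₁ (n₀ + 1)) M Λ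
    (fun n => A₀ * (1 - 1 / 10 ^ 5) ^ n) y hFp' hat hDf haM hyM
    (fun n hn => hZ n ((le_max_right _ _).trans hn)) hyP (t₁ - T) (by linarith)
  refine ⟨fun θ t => if t < T then x t else w θ (t - T), fun θ hθ => ⟨?_, fun t ht => if_pos ht.2⟩,
    ?_⟩
  · obtain ⟨hw1, hL1⟩ := hw θ hθ
    exact Pool.Agent.K1H39.NU.t_GLUE G T x (w θ) hT hode hen hEI
      (fun i => by rw [hw1]; exact hy1 i) hL1
  · intro θ hθ θ' hθ' heq
    have h1 : ¬ t₁ < T := by linarith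
    simp only [if_neg h1] at heq
    exact hinj hθ hθ' heq

end Pool.Agent.K1H54.NU
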