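import Pool.Agent.K1H54.LO.GeoR
import Pool.Agent.K1H54.NU.Stm2

/-!
The two systems of modes, and choice of the parameters (`S_GEO3`).
-/

open Set Filter Topology MeasureTheory

set_option autoImplicit false

namespace Pool.Agent.K1H54.NU

open Pool.Agent.Y5 Pool.Agent.Y5.D Pool.Agent.Y5.E Pool.Agent.K1H54.LO Pool.Agent.K1H54.L2
open Pool.Agent.K1H30.OP (SS mem_SS ss_disj)
open Pool.Agent.Y248.ND (vec_neg)

/-- one system of modes -/
lemma msG (hGRP : S_GRP) {X₀ x₀ s δ N₁ c₀ lam : ℝ} (K : ℕ → ℕ)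
    (hS : ∀ (F : ℝ) (G : Finset Z3), 2 ≤ F → G.Nonempty →
      (∀ k ∈ G, 0 < k 0 ∧ Odd (k 0) ∧ ‖vec k‖ ≤ F ∧ 1 / 2 ≤ ‖pe k‖) →
      ∃ e : Z3 → ℝ, (∀ k, e k = 1 ∨ e k = -1) ∧
        (∀ y, ‖fieldOf (sgp G e) y‖ ≤ X₀ * Real.log F) ∧
        1 / 2 ≤ (inner ℝ (fieldOf (sgp G e) y0) (EuclideanSpace.single 2 (1 : ℝ)) : ℝ) ∧
        (inner ℝ (fieldOf (sgp G e) y0) (EuclideanSpace.single 2 (1 : ℝ)) : ℝ) ≤ 10)
    (hx₀ : ∀ x : ℝ, x₀ ≤ x → X₀ * Real.log (2048 * x) ≤ δ * (2048 * x) ^ (s - 1) * √(2 * x))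
    (hs : 1 / 2 < s) (hs' : s < 1) (hδ : 0 < δ)
    (hKx : ∀ n, x₀ ≤ K n) (hKN : ∀ n, N₁ ≤ K n) (hK1 : ∀ n, (1 : ℝ) ≤ K n)
    (hK10 : ∀ n, 10 * (K n : ℝ) ≤ K (n + 1)) (hlam1 : 1 < lam) (hc0 : 0 < c₀)
    (hcf : ∀ n, c₀ * lam ^ n ≤ δ * (K n : ℝ) ^ (s + 3 / 2))
    (hgr : ∃ X : ℝ, ∀ n, (1024 * K n : ℝ) ≤ X * lam ^ n)
    (hpl : ∃ X : ℝ, ∀ n, lam ^ n ≤ X * (1024 * K n : ℝ) ^ 4) :
    ∃ (g : IG K → Fam) (S : IG K → Finset Z3) (R : IG K → ℝ),
      MS (fun i : IG K => i.1) (fun i => i.2.1) (fun n => (K n) ^ 2) g S R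
        (fun n => 1024 * (K n : ℝ)) s N₁ δ c₀ lam ∧
      (∀ i, (1 / 2 : ℝ) ≤ inner ℝ (fieldOf (g i) y0) (EuclideanSpace.single 2 (1 : ℝ))) ∧
      (∀ i, |(inner ℝ (fieldOf (g i) y0) (EuclideanSpace.single 2 (1 : ℝ)) : ℝ)| ≤ 10) ∧
      (∀ i, ((S i).card : ℝ) = 2 * K i.1) := by
  classical
  have hKpos : ∀ n, 0 < K n := fun n => by
    have h1 : (0 : ℝ) < K n := by linarith [hK1 n]
    exact_mod_cast h1
  have hKmono : ∀ n n', n ≤ n' → (K n : ℝ) ≤ K n' := fun n n' h =>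
    monotone_nat_of_le_succ (f := fun n => (K n : ℝ))
      (fun m => show (K m : ℝ) ≤ K (m + 1) by linarith [hK10 m, hK1 m]) h
  have hKlt : ∀ n n', n < n' → 10 * (K n : ℝ) ≤ K n' := fun n n' h =>
    (hK10 n).trans (hKmono (n + 1) n' h)
  choose G hGc hGd hGs hGp using fun n => hGRP (K n) (hKpos n)
  choose Rn hRn using hGs
  have hE := fun n i => hS (2048 * K n) (G n i) (by linarith [hK1 n])
    (by
      rw [← Finset.card_pos, hGc n i]
      exact hKpos n)
    (fun k hk => ⟨(hGp n i k hk).1, (hGp n i k hk).2.1, (hGp n i k hk).2.2.2.2,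
      (hGp n i k hk).2.2.1⟩)
  choose e he1 he2 he3 he4 using hE
  have hgp : ∀ n i, GP (G n i) (K n) (e n i) := fun n i =>
    ⟨hGc n i, hKpos n, fun k hk => (hGp n i k hk).1, fun k hk => (hGp n i k hk).2.2.1, he1 n i⟩
  have hne : ∀ n i, (G n i).Nonempty := fun n i => by
    rw [← Finset.card_pos, hGc n i]
    exact hKpos n
  have hsph : ∀ n i, ∀ k ∈ SS (G n i), ‖vec k‖ = Rn n i := by
    intro n i k hk
    rcases mem_SS.1 hk with h1 | h1
    · exact hRn n i k h1
    · rw [← hRn n i _ h1, vec_neg, norm_neg]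
  have hRb : ∀ n i, 1024 * (K n : ℝ) ≤ Rn n i ∧ Rn n i ≤ 2048 * K n := by
    intro n i
    obtain ⟨k, hk⟩ := hne n i
    rw [← hRn n i k hk]
    exact ⟨(hGp n i k hk).2.2.2.1, (hGp n i k hk).2.2.2.2⟩
  have hsqρ : ∀ n, √((((K n) ^ 2 : ℕ)) : ℝ) = K n := fun n => by
    push_cast
    exact Real.sqrt_sq (by positivity)
  have hcardS : ∀ n i, ((SS (G n i)).card : ℝ) = 2 * K n := fun n i => by
    rw [card_SS2 (hgp n i)]
    push_cast
    rfl
  refine ⟨fun i => sgp (G i.1 i.2) (e i.1 i.2), fun i => SS (G i.1 i.2), fun i => Rn i.1 i.2,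
    ?_, fun i => he3 _ _, fun i => ?_, fun i => hcardS _ _⟩
  · refine
      { shl := shlG K hKpos
        ot := fun i => sgp_ot (hgp _ _)
        supp := fun i k hk => ?_
        flat := fun i k hk => sgp_flat (hgp _ _) hk
        disj := ?_
        ne := fun i => ?_
        sph := fun i k hk => hsph _ _ k hk
        size := fun i => ⟨(hRb _ _).1, ?_⟩
        big := fun i => ?_
        N1 := fun n => by linarith [hK1 n]
        mono := fun n => by linarith [hKmono n (n + 1) (by omega)]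
        sup := fun i y => ?_
        coef := fun i => ?_
        lam1 := hlam1
        grow := hgr
        poly := hpl
        cards := fun i => ?_
        c0 := hc0 }
    · by_contra h1
      exact hk (sgp_not h1)
    · intro i j hij
      obtain ⟨n, i⟩ := i
      obtain ⟨n', j⟩ := j
      simp only
      rcases lt_trichotomy n n' with h | h | h
      · rw [Finset.disjoint_left]
        intro k h1 h2
        have e1 := hsph _ _ k h1
        have e2 := hsph _ _ k h2
        have e3 := (hRb n i).2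
        have e4 := (hRb n' j).1
        have e5 := hKlt n n' h
        have e6 := hK1 n
        rw [← e1] at e3
        rw [← e2] at e4
        linarith
      · subst h
        have hij' : i ≠ j := fun h => hij (by rw [h])
        exact ss_disj (hGd n i j hij') (fun k hk => (hGp n i k hk).1)
          (fun k hk => (hGp n j k hk).1)
      · rw [Finset.disjoint_left]
        intro k h1 h2
        have e1 := hsph _ _ k h1
        have e2 := hsph _ _ k h2
        have e3 := (hRb n' j).2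
        have e4 := (hRb n i).1
        have e5 := hKlt n' n h
        have e6 := hK1 n'
        rw [← e2] at e3
        rw [← e1] at e4
        linarith
    · obtain ⟨k, hk⟩ := hne i.1 i.2
      exact ⟨k, mem_SS.2 (Or.inl hk)⟩
    · have := (hRb i.1 i.2).2
      linarith
    · have h1 := (hRb i.1 i.2).1
      have h2 := hKN i.1
      have h3 := hK1 i.1
      linarith
    · refine (he2 i.1 i.2 y).trans ?_
      have h1 := hx₀ (K i.1) (hKx i.1)
      refine h1.trans ?_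
      rw [hcardS]
      have h2 := hRb i.1 i.2
      have h3 := hK1 i.1
      refine mul_le_mul_of_nonneg_right ?_ (Real.sqrt_nonneg _)
      refine mul_le_mul_of_nonneg_left ?_ hδ.le
      exact Real.rpow_le_rpow_of_nonpos (by linarith) h2.2 (by linarith)
    · have h3 := hK1 i.1
      have h4 : (0 : ℝ) < K i.1 := by linarith
      rw [hcardS, hsqρ]
      have e1 : (K i.1 : ℝ) ^ (s + 3 / 2) = (K i.1 : ℝ) ^ s * (K i.1 * √(K i.1 : ℝ)) := by
        rw [Real.sqrt_eq_rpow]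
        nth_rewrite 3 [← Real.rpow_one (K i.1 : ℝ)]
        rw [← Real.rpow_add h4, ← Real.rpow_add h4]
        congr 1
        ring
      calc c₀ * lam ^ i.1 ≤ δ * (K i.1 : ℝ) ^ (s + 3 / 2) := hcf i.1
        _ = δ * (K i.1 : ℝ) ^ s * (K i.1 * √(K i.1 : ℝ)) := by rw [e1]; ring
        _ ≤ δ * (1024 * K i.1) ^ s * (K i.1 * √(2 * K i.1)) := by
            have e2 : (K i.1 : ℝ) ^ s ≤ (1024 * K i.1) ^ s :=
              Real.rpow_le_rpow h4.le (by linarith) (by linarith)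
            have e3 : √(K i.1 : ℝ) ≤ √(2 * K i.1) := Real.sqrt_le_sqrt (by linarith)
            gcongr
    · rw [hcardS]
      linarith [hK1 i.1]
  · have h1 := he3 i.1 i.2
    have h2 := he4 i.1 i.2
    rw [abs_of_nonneg (by linarith)]
    exact h2

lemma ex_L3 {s s' α : ℝ} (h1 : 2 * α < s' + 3 / 2) (h2 : s' < s) : ∃ L : ℕ, 10 ^ 7 ≤ L ∧
    2 * (L : ℝ) ^ (2 * α) ≤ (L : ℝ) ^ (s' + 3 / 2) ∧
    2 * (L : ℝ) ^ (s' + 3 / 2) ≤ (L : ℝ) ^ (s + 3 / 2) := by
  have e1 : Tendsto (fun L : ℕ => (L : ℝ) ^ (s' + 3 / 2 - 2 * α)) atTop atTop :=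
    (tendsto_rpow_atTop (by linarith)).comp tendsto_natCast_atTop_atTop
  have e2 : Tendsto (fun L : ℕ => (L : ℝ) ^ (s - s')) atTop atTop :=
    (tendsto_rpow_atTop (by linarith)).comp tendsto_natCast_atTop_atTop
  obtain ⟨L, h3, h4, h5⟩ := ((e1.eventually_ge_atTop 2).and
    ((e2.eventually_ge_atTop 2).and (eventually_ge_atTop (10 ^ 7)))).exists
  have hL : (0 : ℝ) < L := by
    have : 0 < L := by omega
    exact_mod_cast this
  refine ⟨L, h5, ?_, ?_⟩
  · have e : (L : ℝ) ^ (s' + 3 / 2) = (L : ℝ) ^ (s' + 3 / 2 - 2 * α) * (L : ℝ) ^ (2 * α) := by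
      rw [← Real.rpow_add hL]; congr 1; ring
    rw [e]
    exact mul_le_mul_of_nonneg_right h3 (Real.rpow_nonneg hL.le _)
  · have e : (L : ℝ) ^ (s + 3 / 2) = (L : ℝ) ^ (s - s') * (L : ℝ) ^ (s' + 3 / 2) := by
      rw [← Real.rpow_add hL]; congr 1; ring
    rw [e]
    exact mul_le_mul_of_nonneg_right h4 (Real.rpow_nonneg hL.le _)

theorem t_GEO3 (hGRP : S_GRP) (hSGN : S_SGN) : S_GEO3 := by
  classical
  intro s α δ N₁ σ hs hs' hα hα' hδ hσ
  obtain ⟨X₀, hX₀, hS⟩ := hSGN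
  obtain ⟨s', hs'1, hs's⟩ : ∃ s', max (1 / 2) (max (2 * α - 3 / 2) (σ + 2 * α - 3 / 2)) < s' ∧
      s' < s := exists_between (max_lt hs (max_lt (by linarith) (by linarith)))
  obtain ⟨hsa, hs'2⟩ := max_lt_iff.1 hs'1
  obtain ⟨hsb, hsc⟩ := max_lt_iff.1 hs'2
  obtain ⟨L, hL7, hLα, hLs⟩ := ex_L3 (s := s) (s' := s') (α := α) (by linarith) hs's
  obtain ⟨x₀, hx₀1, hx₀⟩ := ex_K0 hX₀ hδ hs
  obtain ⟨K₀, hK₀⟩ : ∃ K₀ : ℕ, max x₀ N₁ ≤ K₀ := exists_nat_ge _
  have hK₀x : x₀ ≤ K₀ := (le_max_left _ _).trans hK₀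
  have hK₀N : N₁ ≤ K₀ := (le_max_right _ _).trans hK₀
  have hK₀1 : (1 : ℝ) ≤ K₀ := hx₀1.trans hK₀x
  have hL7' : (10 : ℝ) ^ 7 ≤ L := by exact_mod_cast hL7
  have hL1 : (1 : ℝ) ≤ L := le_trans (by norm_num) hL7'
  have hL0 : (0 : ℝ) < L := by linarith
  set q : ℝ := (L : ℝ) ^ 2 with hq
  have hqL : (L : ℝ) ≤ q := by rw [hq]; nlinarith
  have hq7 : (10 : ℝ) ^ 7 ≤ q := hL7'.trans hqL
  have hq1 : (1 : ℝ) ≤ q := le_trans (by norm_num) hq7
  have hq0 : 0 < q := by linarith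
  have hqp : ∀ x : ℝ, q ^ x = (L : ℝ) ^ x * (L : ℝ) ^ x := fun x => by
    rw [hq, pow_two, Real.mul_rpow hL0.le hL0.le]
  have hLp : ∀ x : ℝ, 0 ≤ x → 1 ≤ (L : ℝ) ^ x := fun x hx => Real.one_le_rpow hL1 hx
  have hqα : 4 * q ^ (2 * α) ≤ q ^ (s' + 3 / 2) := by
    rw [hqp, hqp]
    have h1 := hLp (2 * α) (by linarith)
    nlinarith
  have hqs : 2 * q ^ (s' + 3 / 2) ≤ q ^ (s + 3 / 2) := by
    rw [hqp, hqp]
    have h1 := hLp (s' + 3 / 2) (by linarith)
    nlinarith
  -- the first system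
  set K : ℕ → ℕ := fun n => K₀ * (L ^ 2) ^ n with hK
  have hKr : ∀ n, (K n : ℝ) = K₀ * q ^ n := fun n => by rw [hK, hq]; push_cast; rfl
  have hKs : ∀ n, (K (n + 1) : ℝ) = q * K n := fun n => by rw [hKr, hKr, pow_succ]; ring
  have hKge : ∀ n, (K₀ : ℝ) ≤ K n := fun n => by
    rw [hKr]
    exact le_mul_of_one_le_right (by linarith) (one_le_pow₀ hq1)
  have hK1 : ∀ n, (1 : ℝ) ≤ K n := fun n => hK₀1.trans (hKge n)
  have hKmono : ∀ n n', n ≤ n' → (K n : ℝ) ≤ K n' := fun n n' h => by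
    rw [hKr, hKr]
    exact mul_le_mul_of_nonneg_left (pow_le_pow_right₀ hq1 h) (by linarith)
  -- the second system
  set K' : ℕ → ℕ := fun n => K₀ * L * (L ^ 2) ^ n with hK'
  have hKr' : ∀ n, (K' n : ℝ) = L * K n := fun n => by rw [hK', hKr, hq]; push_cast; ring
  have hKs' : ∀ n, (K' (n + 1) : ℝ) = q * K' n := fun n => by rw [hKr', hKr', hKs]; ring
  have hKK' : ∀ n, (K n : ℝ) ≤ K' n := fun n => by
    rw [hKr']
    nlinarith [hK1 n]
  have hK1' : ∀ n, (1 : ℝ) ≤ K' n := fun n => (hK1 n).trans (hKK' n)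
  -- the parameters
  set lam : ℝ := q ^ (s' + 3 / 2) with hlam
  have hlam13 : (10 : ℝ) ^ 13 ≤ lam := by
    calc (10 : ℝ) ^ 13 ≤ ((10 : ℝ) ^ 7) ^ (2 : ℝ) := by norm_num
      _ ≤ q ^ (2 : ℝ) := Real.rpow_le_rpow (by positivity) hq7 (by norm_num)
      _ ≤ lam := Real.rpow_le_rpow_of_exponent_le hq1 (by linarith)
  have hqlam : q ≤ lam := by
    calc q = q ^ (1 : ℝ) := (Real.rpow_one _).symm
      _ ≤ lam := Real.rpow_le_rpow_of_exponent_le hq1 (by linarith)
  have hlam4 : lam ≤ q ^ 4 := by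
    calc lam ≤ q ^ (4 : ℝ) := Real.rpow_le_rpow_of_exponent_le hq1 (by linarith)
      _ = _ := by norm_cast
  have hlam0 : 0 < lam := by linarith
  have hKp : ∀ n, (K n : ℝ) ^ (s' + 3 / 2) = (K₀ : ℝ) ^ (s' + 3 / 2) * lam ^ n := by
    intro n
    rw [hKr, Real.mul_rpow (by linarith) (by positivity), hlam, ← Real.rpow_natCast,
      ← Real.rpow_natCast, ← Real.rpow_mul hq0.le, ← Real.rpow_mul hq0.le, mul_comm (n : ℝ)]
  set c₀ : ℝ := δ * (K₀ : ℝ) ^ (s' + 3 / 2) with hc₀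
  have hc0 : 0 < c₀ := by positivity
  have hck : ∀ n, c₀ * lam ^ n = δ * (K n : ℝ) ^ (s' + 3 / 2) := fun n => by
    rw [hKp, hc₀]; ring
  have hcf : ∀ n, c₀ * lam ^ n ≤ δ * (K n : ℝ) ^ (s + 3 / 2) := fun n => by
    rw [hck]
    exact mul_le_mul_of_nonneg_left
      (Real.rpow_le_rpow_of_exponent_le (hK1 n) (by linarith)) hδ.le
  have hpl : ∀ n, lam ^ n ≤ 1 * (1024 * K n : ℝ) ^ 4 := fun n => by
    rw [one_mul]
    have h1 : lam ^ n ≤ (q ^ 4) ^ n := pow_le_pow_left₀ hlam0.le hlam4 n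
    have h2 : q ^ n ≤ 1024 * K n := by
      rw [hKr]
      have h3 : (0 : ℝ) < q ^ n := by positivity
      nlinarith
    calc lam ^ n ≤ (q ^ 4) ^ n := h1
      _ = (q ^ n) ^ 4 := pow_right_comm q 4 n
      _ ≤ _ := pow_le_pow_left₀ (by positivity) h2 4
  have hgr : ∀ n, (1024 * K n : ℝ) ≤ 1024 * K₀ * lam ^ n := fun n => by
    rw [hKr]
    have h1 : q ^ n ≤ lam ^ n := pow_le_pow_left₀ hq0.le hqlam n
    calc 1024 * (K₀ * q ^ n) = 1024 * K₀ * q ^ n := by ring
      _ ≤ _ := by gcongr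
  have h10 : (10 : ℝ) ≤ q := le_trans (by norm_num) hq7
  obtain ⟨g, S, R, hMS, hlo, hup, hcS⟩ := msG hGRP K hS hx₀ hs hs' hδ
    (fun n => hK₀x.trans (hKge n)) (fun n => hK₀N.trans (hKge n)) hK1
    (fun n => by rw [hKs]; nlinarith [hK1 n]) (lt_of_lt_of_le (by norm_num) hlam13) hc0 hcf
    ⟨_, hgr⟩ ⟨_, hpl⟩
  obtain ⟨g', S', R', hMS', -, -, hcS'⟩ := msG (c₀ := c₀) (lam := lam) hGRP K' hS hx₀ hs hs' hδ
    (fun n => hK₀x.trans ((hKge n).trans (hKK' n)))
    (fun n => hK₀N.trans ((hKge n).trans (hKK' n))) hK1'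
    (fun n => by rw [hKs']; nlinarith [hK1' n]) (lt_of_lt_of_le (by norm_num) hlam13) hc0
    (fun n => (hcf n).trans (mul_le_mul_of_nonneg_left
      (Real.rpow_le_rpow (by linarith [hK1 n]) (hKK' n) (by linarith)) hδ.le))
    ⟨L * (1024 * K₀), fun n => by
      rw [hKr']
      calc 1024 * ((L : ℝ) * K n) = L * (1024 * K n) := by ring
        _ ≤ L * (1024 * K₀ * lam ^ n) := mul_le_mul_of_nonneg_left (hgr n) hL0.le
        _ = _ := by ring⟩
    ⟨1, fun n => (hpl n).trans (by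
      have := hKK' n
      gcongr)⟩
  have hKpos : ∀ n, 0 < K n := fun n => by
    have h1 : (0 : ℝ) < K n := by linarith [hK1 n]
    exact_mod_cast h1
  have hKpos' : ∀ n, 0 < K' n := fun n => by
    have h1 : (0 : ℝ) < K' n := by linarith [hK1' n]
    exact_mod_cast h1
  have hsh := shlG K hKpos
  have hsh' := shlG K' hKpos'
  have hr0 : 0 < δ / q := by positivity
  set G : GS :=
    { I := IG K
      J := IG K'
      sh := fun i => i.1
      ty := fun i => i.2.1
      ρ := fun n => (K n) ^ 2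
      sh' := fun i => i.1
      ty' := fun i => i.2.1
      ρ' := fun n => (K' n) ^ 2
      c := fun n => c₀ * lam ^ n
      r := fun n => δ / q * (2 * lam) ^ n
      ε := Real.exp (-(400 * lam))
      d := fun _ => 0
      d' := fun _ => 0
      fin := hsh.fin
      card := hsh.card
      pos := hsh.pos
      fin' := hsh'.fin
      card' := hsh'.card
      pos' := hsh'.pos
      c0 := fun n => by positivity
      r0 := fun n => by positivity
      ε0 := (Real.exp_pos _).le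
      d0 := fun _ => le_rfl
      d0' := fun _ => le_rfl } with hG
  have hsqρ : ∀ n, √((((K n) ^ 2 : ℕ)) : ℝ) = K n := fun n => by
    push_cast
    exact Real.sqrt_sq (by positivity)
  have hsqρ' : ∀ n, √((((K' n) ^ 2 : ℕ)) : ℝ) = K' n := fun n => by
    push_cast
    exact Real.sqrt_sq (by positivity)
  refine ⟨G, g, S, R, fun n => 1024 * K n, g', S', R', fun n => 1024 * K' n, c₀, lam, q, δ / q,
    hlam13, rfl, hr0, fun n => rfl, ?_, ?_, ?_, ?_⟩
  · -- MM
    refine ⟨hMS, hMS', ?_, fun n => rfl, hq1, ?_, ?_, ?_, ?_, ?_, ?_, ?_⟩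
    · intro i j
      rw [Finset.disjoint_left]
      intro k h1 h2
      have e1 := hMS.sph i k h1
      have e2 := hMS'.sph j k h2
      have e3 := hMS.size i
      have e4 := hMS'.size j
      rw [← e1] at e3
      rw [← e2] at e4
      have hL2 : (2 : ℝ) < L := lt_of_lt_of_le (by norm_num) hL7'
      rcases le_or_gt i.1 j.1 with h | h
      · have h3 := hKmono i.1 j.1 h
        have h4 := hK1 i.1
        have h5 : (L : ℝ) * K i.1 ≤ K' j.1 := by
          rw [hKr']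
          gcongr
        have h6 : 0 < ((L : ℝ) - 2) * K i.1 := mul_pos (by linarith) (by linarith)
        linarith [e3.2, e4.1]
      · have h3 := hKmono (j.1 + 1) i.1 h
        have h4 := hK1' j.1
        have h5 : (L : ℝ) * K' j.1 ≤ K i.1 := by
          refine le_trans (le_of_eq ?_) h3
          rw [hKr', hKs, hq]
          ring
        have h6 : 0 < ((L : ℝ) - 2) * K' j.1 := mul_pos (by linarith) (by linarith)
        linarith [e3.1, e4.2]
    · intro n
      have := hKK' n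
      linarith
    · intro n
      rw [hKr']
      have := hK1 n
      nlinarith
    · intro n
      rw [hKs']
      linarith
    · intro n
      simp only [hG]
      positivity
    · intro n
      simp only [hG]
      refine mul_le_mul_of_nonneg_left (pow_le_pow_right₀ ?_ (by omega)) hr0.le
      linarith
    · intro j
      simp only [hG]
      rw [hcS', hsqρ']
      have h3 := hK1' j.1
      have h4 : (0 : ℝ) < K' j.1 := by linarith
      have e1 : (K' j.1 : ℝ) ^ (s + 3 / 2) = (K' j.1 : ℝ) ^ s * (K' j.1 * √(K' j.1 : ℝ)) := by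
        rw [Real.sqrt_eq_rpow]
        nth_rewrite 3 [← Real.rpow_one (K' j.1 : ℝ)]
        rw [← Real.rpow_add h4, ← Real.rpow_add h4]
        congr 1
        ring
      have e4 : (2 * lam) ^ j.1 ≤ (K' j.1 : ℝ) ^ (s + 3 / 2) := by
        have h5 : (2 * lam) ^ j.1 ≤ (q ^ (s + 3 / 2)) ^ j.1 :=
          pow_le_pow_left₀ (by positivity) hqs _
        refine h5.trans ?_
        have h6 : (q ^ (s + 3 / 2)) ^ j.1 = (q ^ j.1) ^ (s + 3 / 2) := by
          rw [← Real.rpow_natCast, ← Real.rpow_natCast, ← Real.rpow_mul hq0.le,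
            ← Real.rpow_mul hq0.le, mul_comm]
        rw [h6]
        refine Real.rpow_le_rpow (by positivity) ?_ (by linarith)
        refine le_trans ?_ (hKK' _)
        rw [hKr]
        exact le_mul_of_one_le_left (by positivity) hK₀1
      calc δ / q * (2 * lam) ^ j.1 ≤ δ / q * (K' j.1 : ℝ) ^ (s + 3 / 2) := by gcongr
        _ = δ / q * (K' j.1 : ℝ) ^ s * (K' j.1 * √(K' j.1 : ℝ)) := by rw [e1]; ring
        _ ≤ δ / q * (1024 * K' j.1) ^ s * (K' j.1 * √(2 * K' j.1)) := by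
            have e2 : (K' j.1 : ℝ) ^ s ≤ (1024 * K' j.1) ^ s :=
              Real.rpow_le_rpow h4.le (by linarith) (by linarith)
            have e3 : √(K' j.1 : ℝ) ≤ √(2 * K' j.1) := Real.sqrt_le_sqrt (by linarith)
            gcongr
    · refine ⟨δ / q, fun i => ?_⟩
      simp only [hG]
      rw [hcS, hsqρ]
      have h3 := hK1 i.1
      have h4 : (0 : ℝ) < K i.1 := by linarith
      have e1 : (K i.1 : ℝ) ^ (s + 3 / 2) ≤ K i.1 * (K i.1 * √(K i.1 : ℝ)) := by
        have e5 : (K i.1 : ℝ) * (K i.1 * √(K i.1 : ℝ)) = (K i.1 : ℝ) ^ ((1 : ℝ) + 3 / 2) := by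
          rw [Real.sqrt_eq_rpow]
          nth_rewrite 1 [← Real.rpow_one (K i.1 : ℝ)]
          nth_rewrite 2 [← Real.rpow_one (K i.1 : ℝ)]
          rw [← Real.rpow_add h4, ← Real.rpow_add h4]
          congr 1
          ring
        rw [e5]
        exact Real.rpow_le_rpow_of_exponent_le h3 (by linarith)
      have e4 : (2 * lam) ^ i.1 ≤ (K i.1 : ℝ) ^ (s + 3 / 2) := by
        have h5 : (2 * lam) ^ i.1 ≤ (q ^ (s + 3 / 2)) ^ i.1 :=
          pow_le_pow_left₀ (by positivity) hqs _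
        refine h5.trans ?_
        have h6 : (q ^ (s + 3 / 2)) ^ i.1 = (q ^ i.1) ^ (s + 3 / 2) := by
          rw [← Real.rpow_natCast, ← Real.rpow_natCast, ← Real.rpow_mul hq0.le,
            ← Real.rpow_mul hq0.le, mul_comm]
        rw [h6]
        refine Real.rpow_le_rpow (by positivity) ?_ (by linarith)
        rw [hKr]
        exact le_mul_of_one_le_left (by positivity) hK₀1
      have e3 : √(K i.1 : ℝ) ≤ √(2 * K i.1) := Real.sqrt_le_sqrt (by linarith)
      calc δ / q * (2 * lam) ^ i.1 ≤ δ / q * (K i.1 * (K i.1 * √(K i.1 : ℝ))) :=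
            mul_le_mul_of_nonneg_left (e4.trans e1) hr0.le
        _ ≤ δ / q * (1024 * K i.1 * (K i.1 * √(2 * K i.1))) := by
            have : (K i.1 : ℝ) ≤ 1024 * K i.1 := by linarith
            gcongr
  · -- MX
    refine ⟨fun n => ?_, fun n => ?_, fun i _ => hlo i, hup⟩
    · simp only [hG]
      rw [hsqρ, hsqρ, hKs]
      have h1 : (10000 : ℝ) ≤ q := le_trans (by norm_num) hq7
      have h2 := hK1 n
      nlinarith
    · simp only [hG]
      rw [hsqρ, hsqρ, hKs]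
      have h2 := hK1 n
      nlinarith
  · -- the growth
    refine ⟨(1024 * L * K₀) ^ (2 * α), fun n => ?_⟩
    simp only
    have h1 : (1024 * (K' n : ℝ)) = (1024 * L * K₀) * q ^ n := by rw [hKr', hKr]; ring
    have h2 : (q ^ n) ^ (2 * α) = (q ^ (2 * α)) ^ n := by
      rw [← Real.rpow_natCast, ← Real.rpow_natCast, ← Real.rpow_mul hq0.le,
        ← Real.rpow_mul hq0.le, mul_comm]
    rw [h1, Real.mul_rpow (by positivity) (by positivity), h2]
    refine mul_le_mul_of_nonneg_left ?_ (Real.rpow_nonneg (by positivity) _)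
    refine pow_le_pow_left₀ (Real.rpow_nonneg hq0.le _) ?_ n
    have h3 : 0 < q ^ (2 * α) := Real.rpow_pos_of_pos hq0 _
    linarith
  · intro ν η hν hη
    have hKt : Tendsto (fun n => (K n : ℝ)) atTop atTop := by
      have h1 : Tendsto (fun n : ℕ => q ^ n) atTop atTop :=
        tendsto_pow_atTop_atTop_of_one_lt (lt_of_lt_of_le (by norm_num) hq7)
      refine tendsto_atTop_mono (fun n => ?_) h1
      rw [hKr]
      exact le_mul_of_one_le_left (by positivity) hK₀1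
    obtain ⟨n₀, a₀, ha₀, p1, p2, p3⟩ := ex_par (s := s') (s₁ := σ) (lam := 20 / 7 * lam) hα
      (by linarith) hδ hKt hν hη (by linarith)
    have hpi := Real.pi_gt_three
    have e7 : 700 * (20 / 7 * lam) = 2000 * lam := by ring
    rw [e7] at p1
    refine ⟨n₀, a₀, ha₀, fun n => ?_, fun i hi => ?_, ?_⟩
    · simp only
      rw [hck]
      have h1 : 2 * Real.pi * (2 * (1024 * (K (n₀ + n) : ℝ))) =
          (4096 * Real.pi * K n₀) * q ^ n := by
        rw [hKr, hKr, pow_add]; ring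
      have h2 : (q ^ n) ^ (2 * α) = (q ^ (2 * α)) ^ n := by
        rw [← Real.rpow_natCast, ← Real.rpow_natCast, ← Real.rpow_mul hq0.le,
          ← Real.rpow_mul hq0.le, mul_comm]
      have h3 := hK1 n₀
      rw [h1, Real.mul_rpow (by positivity) (by positivity), h2]
      have h4 : (q ^ (2 * α)) ^ n ≤ lam ^ n * (1 - 1 / 10 ^ 5) ^ n := by
        rw [← mul_pow]
        refine pow_le_pow_left₀ (Real.rpow_nonneg hq0.le _) ?_ n
        have h5 : 0 < q ^ (2 * α) := Real.rpow_pos_of_pos hq0 _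
        norm_num
        linarith
      calc ν * ((4096 * Real.pi * K n₀) ^ (2 * α) * (q ^ (2 * α)) ^ n)
          = (ν * (4096 * Real.pi * K n₀) ^ (2 * α)) * (q ^ (2 * α)) ^ n := by ring
        _ ≤ (Real.exp (-(2000 * lam)) * (δ * (K n₀ : ℝ) ^ (s' + 3 / 2) * a₀)) *
            (lam ^ n * (1 - 1 / 10 ^ 5) ^ n) := by gcongr
        _ = _ := by ring
    · have h1 : i.1 = n₀ := hi
      have h2 := hMS.size i
      have h3 := hK1 i.1
      have h4 : 1 ≤ R i := by linarith [h2.1]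
      refine p2 _ ?_ ?_
      · nlinarith
      · rw [← h1]
        have h5 : R i ≤ 2048 * K i.1 := by linarith [h2.2]
        calc 2 * Real.pi * R i ≤ 2 * Real.pi * (2048 * K i.1) :=
              mul_le_mul_of_nonneg_left h5 (by positivity)
          _ = _ := by ring
    · rw [hck]
      refine le_trans ?_ p3
      have h3 : 0 < δ * (K n₀ : ℝ) ^ (s' + 3 / 2) * a₀ := by
        have := hK1 n₀
        positivity
      exact div_le_div_of_nonneg_right (by linarith) h3.le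

end Pool.Agent.K1H54.NU
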