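import Pool.Agent.K1H54.NU.Dyn3
import Pool.Agent.K1H54.NU.Geo3
import Pool.Agent.K1H54.NU.Stm6
import Pool.Agent.K1H54.LO3.Main3
import Pool.Agent.K1H63.NU.OP3
import Pool.Agent.K1H45.NU.Weak

/-!
Non-uniqueness: assembly of the main theorem.
-/

open Set Topology MeasureTheory
open Filter hiding ker
open scoped ENNReal

set_option autoImplicit false

namespace Pool.Agent.K1H54.NU

open Pool.Agent.Y5 Pool.Agent.Y5.D Pool.Agent.Y5.E Pool.Agent.K1H54.LO Pool.Agent.K1H54.L2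
  Pool.Agent.K1H54.L3
open Pool.Agent.K1H21.LO (SF mem_SF card_SF inv_sqm fv_mem fv_zero)
open Pool.Agent.Y274.NE (t_FLD2 sob_eq)

/-- The main theorem. -/
def S_MAIN7 : Prop := ∀ (δ s α N₁ σ s₀ M : ℝ) (A : (E3 → E3) → (E3 → E3) → E3 → E3), 0 < δ →
  1 / 2 < s → s < 1 → 0 ≤ α → 2 * α < s + 3 / 2 → σ < s + 3 / 2 - 2 * α → s₀ < s → COp s₀ M A →
  ∃ B : (E3 → E3) → (E3 → E3) → E3 → E3, LOp2 s δ N₁ B ∧ ∃ β : Fam → Fam → Fam → ℝ,
  (∀ V W Z, OT V → Rap V → OT W → Rap W → OT Z → Rap Z →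
    ip (A (fieldOf V) (fieldOf W) + B (fieldOf V) (fieldOf W)) (fieldOf Z) = β V W Z) ∧
  ∀ ν η : ℝ, 0 ≤ ν → 0 < η → ∃ (T : ℝ) (u : ℝ → E3 → E3),
    0 < T ∧ T ≤ η ∧ SolA ν α (fun v w => A v w + B v w) T u ∧ TP (u 0) ∧ sob σ (u 0) ≤ η ∧
    -- uniqueness, and `T` is the maximal time of existence
    (∀ (T' : ℝ) (v : ℝ → E3 → E3), 0 < T' → SolA ν α (fun v w => A v w + B v w) T' v →
      v 0 = u 0 → T' ≤ T ∧ ∀ t ∈ Ico 0 T', v t = u t) ∧
    -- the energy identity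
    (∀ t ∈ Ico 0 T, HasDerivWithinAt (fun τ => ip (u τ) (u τ)) (-(2 * (ν * sob α (u t))))
      (Ico 0 T) t) ∧
    -- blow-up of the velocity
    (∀ M : ℝ, ∃ t ∈ Ico 0 T, ∃ y, M < ‖u t y‖) ∧
    -- weak-strong uniqueness
    (∀ X : ℝ → Fam, FLHi (dsy ν α) β X → X 0 = cf (u 0) → ∀ t ∈ Ico 0 T, X t = cf (u t)) ∧
    -- non-uniqueness
    (0 < ν → 0 < α → ∀ t : ℝ, T < t → ∃ Y : ℝ → ℝ → Fam,
      (∀ θ ∈ Icc (0 : ℝ) 1, FLHi (dsy ν α) β (Y θ) ∧ Y θ 0 = cf (u 0)) ∧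
      InjOn (fun θ => Y θ t) (Icc 0 1))

/-- the forms agree on the span of the modes -/
lemma flh_congr {I : Type} {g : I → Fam} {S : I → Finset Z3} {R : I → ℝ} {D : Z3 → ℝ}
    {β β' : Fam → Fam → Fam → ℝ} {x : ℝ → I → ℝ} (hm : Pool.Agent.K1H30.OP2.Md g S R)
    (hb : ∀ w Z, β (Sy g w) (Sy g w) Z = β' (Sy g w) (Sy g w) Z)
    (h : FLH D β (fun t => Sy g (x t))) : FLH D β' (fun t => Sy g (x t)) where
  ot := h.ot
  fin := h.fin
  eqn := fun Z hZ hf t ht => by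
    obtain ⟨L, h1, h2⟩ := h.eqn Z hZ hf t ht
    refine ⟨L, h1.congr fun K => ?_, h2⟩
    rw [Pool.Agent.K1H45.NU.trn_Sy hm, hb]
  e0 := h.e0
  es := h.es

theorem main7 (hWSU : S_WSUI) (hFLHI : S_FLHI) (hPOSE : S_POSE) : S_MAIN7 := by
  intro δ s α N₁ σ s₀ M₀ A hδ hs hs' hα hα' hσ hs₀ hA₀
  have hpi := Real.pi_pos
  obtain ⟨C₀, hC₀, hTF⟩ := tfm_tf hA₀
  set M' : ℝ := 2 * Real.pi * |M₀| with hM'
  have hM'0 : 0 ≤ M' := by positivity
  -- the smallness parameters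
  set δ₁ : ℝ := min (δ / 2) (δ / (M' + 1)) with hδ₁
  have hδ₁0 : 0 < δ₁ := lt_min (by positivity) (by positivity)
  set θ : ℝ := δ / (12 * (M' + 1)) with hθ
  have hθ0 : 0 < θ := by positivity
  obtain ⟨N₀, hN₀⟩ : ∃ N₀ : ℝ, ∀ x, N₀ ≤ x → x ^ (s₀ - s) ≤ θ := by
    have h1 : Tendsto (fun x : ℝ => x ^ (-(s - s₀))) atTop (𝓝 0) :=
      tendsto_rpow_neg_atTop (by linarith)
    have h2 := (h1.eventually (gt_mem_nhds hθ0)).exists_forall_of_atTop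
    obtain ⟨a, ha⟩ := h2
    refine ⟨a, fun x hx => ?_⟩
    have := ha x hx
    rw [show s₀ - s = -(s - s₀) by ring]
    exact this.le
  set N₂ : ℝ := max (max N₁ 1) N₀ with hN₂
  have hN₂0 : N₁ ≤ N₂ := (le_max_left _ _).trans (le_max_left _ _)
  have hN₂1 : 1 ≤ N₂ := (le_max_right _ _).trans (le_max_left _ _)
  have hN₂θ : N₂ ^ (s₀ - s) ≤ θ := hN₀ _ (le_max_right _ _)
  obtain ⟨G, g, S, R, N, g', S', R', N', c₀, lam, X, r₀, hlam, hε, hr₀, hr, hMM, hMX, hX₂, hpar⟩ :=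
    t_GEO3 Pool.Agent.K1H52.LO.t_GRP t_SGN s α (δ₁ / 100) N₂ σ hs hs' hα hα' (by positivity) hσ
  have hε1 : G.ε ≤ 1 := by
    rw [hε]
    apply Real.exp_le_one_iff.2
    linarith
  obtain ⟨⟨C, hF⟩, hsharp⟩ := Pool.Agent.K1H63.NU.t_OP3 Pool.Agent.K1H52.LO.t_TRI G g S R N g' S' R' N' s N₂ δ₁ c₀ lam X
    hs hs' hδ₁0 hN₂1 hε1 hMM
  have hmd := Pool.Agent.K1H45.NU.md_sum (Pool.Agent.K1H30.OP2.md_of hMM.m1)
    (Pool.Agent.K1H30.OP2.md_of hMM.m2) hMM.dis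
  set gg : G.I ⊕ G.J → Fam := Sum.elim g g' with hgg
  set β₀ : Fam → Fam → Fam → ℝ := tfm A with hβ₀
  have hbig : ∀ i, N₂ ≤ Sum.elim R R' i := by
    rintro (i | j)
    · exact hMM.m1.big i
    · exact hMM.m2.big j
  have hsup : ∀ i y, ‖fieldOf (gg i) y‖ ≤
      δ₁ / 100 * Sum.elim R R' i ^ (s - 1) * √((Sum.elim S S' i).card : ℝ) := by
    rintro (i | j) y
    · exact hMM.m1.sup i y
    · exact hMM.m2.sup j y
  have hFz := bz_fpert hTF hM'0 hC₀ hmd (δ := δ₁ / 100) (by positivity) hN₂1 hbig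
    (by linarith) hs₀.le hsup
  -- the total bound
  have hsum : δ₁ + 3 * M' * (δ₁ / 100 + N₂ ^ (s₀ - s)) ≤ δ := by
    have e1 : δ₁ ≤ δ / 2 := min_le_left _ _
    have e2 : δ₁ ≤ δ / (M' + 1) := min_le_right _ _
    have e3 : M' * δ₁ ≤ δ := by
      rw [le_div_iff₀ (by positivity)] at e2
      nlinarith
    have e4 : M' * N₂ ^ (s₀ - s) ≤ δ / 12 := by
      calc M' * N₂ ^ (s₀ - s) ≤ M' * θ := by gcongr
        _ ≤ (M' + 1) * θ := by gcongr; linarith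
        _ = δ / 12 := by rw [hθ]; field_simp
    have e5 : 3 * M' * (δ₁ / 100 + N₂ ^ (s₀ - s)) =
        3 / 100 * (M' * δ₁) + 3 * (M' * N₂ ^ (s₀ - s)) := by
      ring
    rw [e5]
    linarith
  set β₁ : Fam → Fam → Fam → ℝ := fun V W Z => bN G lam c₀ g g' V W Z + bz gg β₀ V W Z with hβ₁
  have hF₁ := fpert_add hF hFz
  have hsharp₁ : ∀ V W Z, OT V → Rap V → OT W → Rap W → OT Z → Rap Z →
      |β₁ V W Z| ≤ δ * (A1 (s - 1) V * h1 W) * l2 Z := by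
    intro V W Z hV hVr hW hWr hZ hZr
    have e1 := hsharp V W Z hV hVr hW hWr hZ hZr
    have e2 := bz_small hTF hM'0 hmd (δ := δ₁ / 100) (by positivity) hN₂1 hbig
      (by linarith) hs₀.le hsup hVr hW hWr hZ hZr
    have n1 := Pool.Agent.K1H30.OP.A1_nonneg (s - 1) V
    have n2 := Pool.Agent.K1H30.OP.h1_nonneg W
    have n3 := Pool.Agent.K1H30.OP.l2_nonneg Z
    refine (abs_add_le _ _).trans ((add_le_add e1 e2).trans ?_)
    calc _ = (δ₁ + 3 * M' * (δ₁ / 100 + N₂ ^ (s₀ - s))) * (A1 (s - 1) V * h1 W) * l2 Z := by ring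
      _ ≤ _ := by gcongr
  have hθ1 : 0 ≤ δ₁ + 3 * M' * (δ₁ / 100 + N₂ ^ (s₀ - s)) := by
    have : (0 : ℝ) < N₂ := by linarith
    positivity
  obtain ⟨Bo, hBo, hrep₁⟩ := t_LOP s _ _ (fun k => N₂ ≤ ‖vec k‖) β₁ hθ1
    (fun k hk => by rwa [vec_neg', norm_neg]) hF₁
  have hLOp2 : LOp2 s δ N₁ Bo := by
    refine ⟨hBo.field, hBo.add1, hBo.smul1, hBo.add2, hBo.smul2, hBo.energy, ?_, hBo.low, ?_, ?_⟩
    · intro v w hv hw
      have hb := hBo.field v w hv hw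
      obtain ⟨v1, v2, v3⟩ := pf_cf hv
      obtain ⟨w1, w2, w3⟩ := pf_cf hw
      obtain ⟨b1, b2, b3⟩ := pf_cf hb
      have h1 := hrep₁ (cf v) (cf w) (cf (Bo v w)) v1 v2 w1 w2 b1 b2
      rw [v3, w3, b3, ip_cf hb hb, pair_self_eq] at h1
      have h2 := hsharp₁ (cf v) (cf w) (cf (Bo v w)) v1 v2 w1 w2 b1 b2
      rw [sqrt_ip hb]
      have hw0 : 0 ≤ wie (s - 1) v := tsum_nonneg fun _ => by positivity
      have hlb : 0 ≤ l2 (cf (Bo v w)) := Real.sqrt_nonneg _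
      refine l2_zero_of_le (by positivity) ?_
      rw [h1]
      refine (le_abs_self _).trans (h2.trans ?_)
      have h3 := h1_le_dir hw
      have e2 : A1 (s - 1) (cf v) = wie (s - 1) v := rfl
      rw [e2]
      gcongr
    · intro v w hv hw h0
      exact hBo.thin1 v w hv hw fun k hk => h0 k (hN₂0.trans hk)
    · intro v w hv hw h0 k hk
      exact hBo.thin2 v w hv hw (fun k hk => h0 k (hN₂0.trans hk)) k
        fun h => hk (hN₂0.trans h)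
  -- the full form
  set β : Fam → Fam → Fam → ℝ := fun V W Z => β₀ V W Z + β₁ V W Z with hβ
  have hFβ : ∃ δ' C', FPert 1 δ' C' (fun _ => True) β :=
    ⟨_, _, fpert_add (tf_fpert (by linarith) hM'0 hTF) (fpert_mono hs'.le hθ1 hF₁)⟩
  obtain ⟨δ', C', hFβ⟩ := hFβ
  set Bt : (E3 → E3) → (E3 → E3) → E3 → E3 := fun v w => A v w + Bo v w with hBt
  have hrep : ∀ V W Z, OT V → Rap V → OT W → Rap W → OT Z → Rap Z →
      ip (Bt (fieldOf V) (fieldOf W)) (fieldOf Z) = β V W Z := by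
    intro V W Z hV hVr hW hWr hZ hZr
    rw [hBt, hβ]
    simp only
    rw [← hrep₁ V W Z hV hVr hW hWr hZ hZr, ip_add_left
      (hA₀.field _ _ (pf_of hV hVr) (pf_of hW hWr))
      (hBo.field _ _ (pf_of hV hVr) (pf_of hW hWr)) (pf_of hZ hZr)]
    rfl
  have hββ : ∀ w Z, bN G lam c₀ g g' (Sy gg w) (Sy gg w) Z = β (Sy gg w) (Sy gg w) Z := by
    intro w Z
    rw [hβ, hβ₁]
    simp only
    rw [bz_Sy hmd]
    ring
  refine ⟨Bo, hLOp2, β, hrep, ?_⟩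
  intro ν η hν hη
  obtain ⟨n₀, a₀, ha₀, hp, hsb, hT1⟩ := hpar ν η hν hη
  have hRpos : ∀ i, 0 ≤ R i := fun i =>
    (zero_le_one.trans (hMM.m1.N1 (G.sh i))).trans (hMM.m1.size i).1
  have hRpos' : ∀ j, 0 ≤ R' j := fun i =>
    (zero_le_one.trans (hMM.m2.N1 (G.sh' i))).trans (hMM.m2.size i).1
  set Gν : GS := G.wd (fun i => dr ν α (R i)) (fun j => dr ν α (R' j))
    (fun i => by have := hRpos i; unfold dr; positivity)
    (fun j => by have := hRpos' j; unfold dr; positivity) with hGν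
  have hMMν : MM Gν g S R N g' S' R' N' s N₂ (δ₁ / 100) c₀ lam X :=
    ⟨hMM.m1, hMM.m2, hMM.dis, hMM.cc, hMM.X1, hMM.n1, hMM.n2, hMM.n3, hMM.rp, hMM.rm, hMM.rc,
      hMM.rx⟩
  have hMS' := Pool.Agent.K1H30.OP2.ms_sub (n₀ := n₀) hMM.m1
  have hMX' : MX (fun i : Sub G.sh n₀ => G.ty i) (fun n => G.ρ (n₀ + n))
      (fun i : Sub G.sh n₀ => g i) lam y0 :=
    ⟨fun n => hMX.mlo (n₀ + n), fun n => hMX.mup (n₀ + n), fun i hi => hMX.lo i hi,
      fun i => hMX.up i⟩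
  obtain ⟨T, z, hT, hTle, hA, hRa, hz0, hGrow, hcont⟩ :=
    dyn3 hPOSE (G := Gν) hMMν hlam hε hr₀ hr hX₂ hα hν (fun i => rfl) (fun j => rfl) ha₀ hp
  have hSym : Sym (dsy ν α) := dsy_sym hν hα (by linarith)
  have hD1 : ∀ i, ∀ k ∈ S i, dsy ν α k = Gν.d i := fun i k hk => by
    unfold dsy
    rw [hMM.m1.sph i k hk]
    rfl
  have hD2 : ∀ j, ∀ k ∈ S' j, dsy ν α k = Gν.d' j := fun j k hk => by
    unfold dsy
    rw [hMM.m2.sph j k hk]
    rfl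
  have hV' := Pool.Agent.K1H60.NU.t_EXB Gν g S R N g' S' R' N' s N₂ (δ₁ / 100) c₀ lam X (dsy ν α)
    n₀ T z (by positivity) hN₂1 hε1 hMMν hSym hD1 hT hA hRa
  set V : ℝ → Fam := fun t => Sy gg (ext (G := Gν) n₀ fun a => z a t) with hVd
  have hV : FSolD (dsy ν α) β T V := by
    refine ⟨hV'.ot, hV'.rap, fun Z hZ hf t ht => ?_⟩
    refine (hV'.eqn Z hZ hf t ht).congr_deriv ?_
    have e : bN G lam c₀ g g' (V t) (V t) Z = β (V t) (V t) Z := hββ _ Z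
    rw [← e]
    rfl
  have hu := (t_SOLD T (dsy ν α) β Bt hSym hrep).1 V hV
  have hVsub : ∀ t, V t = Sy (fun i : Sub G.sh n₀ => g i) (fun i => z i t) := fun t =>
    Pool.Agent.K1H60.NU.Sy_ext (G := Gν) g g' _
  have hV0 : V 0 = Sy (fun i : Sub G.sh n₀ => g i) (fun i => a₀ * fv
      (fun i : Sub G.sh n₀ => G.sh i - n₀) (fun i => G.ty i) (fun n => G.ρ (n₀ + n)) true 0 i) := by
    rw [hVsub]
    congr 1
    funext i
    exact hz0 i
  have h0T : (0 : ℝ) ∈ Ico 0 T := ⟨le_rfl, hT⟩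
  have hfin0 : {k | V 0 k ≠ 0}.Finite := by
    rw [hV0]
    refine Sy_fin hMS' (SF hMS'.shl true 0) fun i hi => ?_
    rw [fv_zero hMS'.shl true 0 i hi, mul_zero]
  have hRapV : ∀ t ∈ Ico 0 T, Rap (V t) := fun t ht => rap_of_unif hV.rap ht
  -- blow-up
  have hblow : ∀ M : ℝ, ∃ t ∈ Ico 0 T, ∃ y, M < ‖fieldOf (V t) y‖ := by
    intro M
    have hm : ∀ n, (100 : ℝ) ^ n ≤ √(G.ρ (n₀ + n) : ℝ) := by
      intro n
      induction n with
      | zero =>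
        rw [pow_zero, Real.one_le_sqrt]
        exact_mod_cast hMS'.shl.pos 0
      | succ n ih =>
        calc (100 : ℝ) ^ (n + 1) = 100 * 100 ^ n := by ring
          _ ≤ 10000 * √(G.ρ (n₀ + n) : ℝ) := by gcongr; norm_num
          _ ≤ _ := hMX'.mlo n
    obtain ⟨n, hn⟩ := pow_unbounded_of_one_lt (4 * (M / a₀)) (one_lt_two (α := ℝ))
    obtain ⟨t, ht, a, ha1, ha2, ha3, ha4, ha5⟩ := hGrow n
    have hq : (0 : ℝ) < (1 - 1 / 10 ^ 5) ^ n := by positivity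
    have ha : 0 < a := hq.trans_le ha1
    have hzk : Sk (fun i : Sub G.sh n₀ => lam ^ (G.sh i - n₀)) 0 (fun i => z i t) :=
      (hRa 0 t ht.2).choose_spec t ⟨ht.1, le_rfl⟩ |>.1
    have hz2 : Summable fun i : Sub G.sh n₀ => z i t ^ 2 := by
      unfold Sk at hzk
      simpa using hzk
    have hE : ∀ (x y : ℝ), x / a₀ ^ 2 ≤ y → x ≤ a₀ ^ 2 * y := fun x y h => by
      rwa [div_le_iff₀ (by positivity), mul_comm] at h
    have hsq : ∀ (x y : ℝ), √(x / a₀ ^ 2) ≤ y → √x ≤ a₀ * y := fun x y h => by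
      rw [Real.sqrt_div' _ (by positivity), Real.sqrt_sq ha₀.le, div_le_iff₀ ha₀, mul_comm] at h
      exact h
    have hRV : Rap (Sy (fun i : Sub G.sh n₀ => g i) (fun i => z i t)) := by
      rw [← hVsub]
      exact hRapV t ht
    have hy := vel2 hMS' hMX' hlam (z := fun i => z i t) (n := n) (a := a₀ * a) hz2
      hRV (by positivity)
      (by
        simp only at ha2
        rw [div_eq_iff ha₀.ne'] at ha2
        refine Eq.trans ha2 ?_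
        ring)
      (by
        refine (hE _ _ ha3).trans (le_of_eq ?_)
        ring)
      (fun i hi => by
        refine (hsq _ _ (ha4 i hi)).trans (le_of_eq ?_)
        ring)
      (fun j => by
        refine (hsq _ _ (ha5 j)).trans (le_of_eq ?_)
        ring)
    refine ⟨t, ht, y0, ?_⟩
    rw [hVsub]
    refine lt_of_lt_of_le ?_ hy
    have h5 : (2 : ℝ) ^ n ≤ √(G.ρ (n₀ + n) : ℝ) * a := by
      calc (2 : ℝ) ^ n ≤ (100 * (1 - 1 / 10 ^ 5)) ^ n := by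
            gcongr
            norm_num
        _ = 100 ^ n * (1 - 1 / 10 ^ 5) ^ n := mul_pow _ _ _
        _ ≤ √(G.ρ (n₀ + n) : ℝ) * a := by
            have := hm n
            gcongr
    have h6 : 4 * (M / a₀) < √(G.ρ (n₀ + n) : ℝ) * a := hn.trans_le h5
    have h7 : 4 * (M / a₀) = 4 * M / a₀ := by ring
    rw [h7, div_lt_iff₀ ha₀] at h6
    linarith
  have hcfV : ∀ t ∈ Ico 0 T, cf (fieldOf (V t)) = V t := fun t ht =>
    cf_fieldOf (hV.ot t ht) (hRapV t ht)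
  refine ⟨T, fun t => fieldOf (V t), hT, hTle.trans hT1, solA_iff.2 hu, ?_, ?_, ?_, ?_, hblow,
    ?_, ?_⟩
  · -- trigonometric polynomial
    exact tp_iff.2 ⟨V 0, hV.ot 0 h0T, hfin0, rfl⟩
  · -- Sobolev norm of the datum
    change sob σ (fieldOf (V 0)) ≤ η
    rw [sob_eq t_FLD2 σ (V 0) (hV.ot 0 h0T) (hRapV 0 h0T), hV0]
    refine sob_fv hMS' fun i hi => hsb i ?_
    have h1 := i.2
    have h2 : G.sh i - n₀ = 0 := hi
    omega
  · -- uniqueness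
    intro T' v hT' hv hv0
    obtain ⟨W, hW, hvW⟩ := (t_SOLD T' (dsy ν α) β Bt hSym hrep).2 v (solA_iff.1 hv)
    have h0T' : (0 : ℝ) ∈ Ico 0 T' := ⟨le_rfl, hT'⟩
    have hRapW : ∀ t ∈ Ico 0 T', Rap (W t) := fun t ht => rap_of_unif hW.rap ht
    have hWV : ∀ k, V 0 k = W 0 k := by
      intro k
      rw [← cf_fieldOf (hV.ot 0 h0T) (hRapV 0 h0T), ← cf_fieldOf (hW.ot 0 h0T') (hRapW 0 h0T'),
        ← hvW 0 h0T', hv0]
    have hun := (t_UNID 1 δ' C' (min T T') (dsy ν α) (fun _ => True) β hSym hFβ).1 V W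
      (hV.restrict (min_le_left _ _)) (hW.restrict (min_le_right _ _)) hWV
    have heq : ∀ t ∈ Ico 0 (min T T'), v t = fieldOf (V t) := by
      intro t ht
      rw [hvW t ⟨ht.1, ht.2.trans_le (min_le_right _ _)⟩]
      congr 1
      funext k
      exact (hun t ht k).symm
    have hle : T' ≤ T := by
      by_contra hlt
      push Not at hlt
      obtain ⟨M, hM⟩ := exBD hW hlt
      obtain ⟨t, ht, y, hy⟩ := hblow (M * ∑' k, Pool.Agent.Y301.G.wt k)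
      have h5 : t ∈ Ico 0 (min T T') := ⟨ht.1, lt_min ht.2 (ht.2.trans hlt)⟩
      have h6 := field_le (W t) (hM t ⟨ht.1, ht.2.le⟩) y
      rw [← hvW t ⟨ht.1, ht.2.trans hlt⟩, heq t h5] at h6
      linarith
    exact ⟨hle, fun t ht => heq t ⟨ht.1, lt_min (ht.2.trans_le hle) ht.2⟩⟩
  · -- energy identity
    intro t ht
    have h3 := (t_UNID 1 δ' C' T (dsy ν α) (fun _ => True) β hSym hFβ).2 V hV t ht
    have h4 : ν * sob α (fieldOf (V t)) = lpD (dsy ν α) (V t) (V t) := by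
      rw [sob_eq t_FLD2 α (V t) (hV.ot t ht) (hRapV t ht)]
      unfold lpD dsy
      rw [← tsum_mul_left]
      exact tsum_congr fun k => by rw [real_inner_self_eq_norm_sq]; ring
    rw [h4]
    refine h3.congr (fun τ hτ => ?_) ?_
    · exact t_FLD2.1.1 (V τ) (V τ) (hV.ot τ hτ) (hRapV τ hτ) (hV.ot τ hτ) (hRapV τ hτ)
    · exact t_FLD2.1.1 (V t) (V t) (hV.ot t ht) (hRapV t ht) (hV.ot t ht) (hRapV t ht)
  · -- weak-strong uniqueness
    intro Y hY hY0 t ht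
    simp only at hY0 ⊢
    rw [hcfV 0 h0T] at hY0
    rw [hcfV t ht]
    exact hWSU 1 δ' C' T (dsy ν α) (fun _ => True) β V Y hSym hFβ hV hY hY0 t ht
  · -- non-uniqueness
    intro hν' hα'' t ht
    have hw : ∀ x : ℝ → G.I ⊕ G.J → ℝ, Gν.LH x → FLHi (dsy ν α) β (fun t => Sy gg (x t)) :=
      fun x hx => hFLHI 1 δ' C' (dsy ν α) (fun _ => True) β _ hSym hFβ <| flh_congr hmd hββ (Pool.Agent.K1H45.NU.t_WEAK Gν g S R N g' S' R' N' s N₂
        (δ₁ / 100) c₀ lam X (dsy ν α) x (by positivity) hN₂1 hε1 hMMν hSym.nonneg hD1 hD2 hx)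
    obtain ⟨Y, hY, hinj⟩ := hcont hν' hα'' t ht
    refine ⟨fun θ t => Sy gg (Y θ t), fun θ hθ => ⟨hw (Y θ) (hY θ hθ).1, ?_⟩, ?_⟩
    · simp only
      rw [hcfV 0 h0T, (hY θ hθ).2 0 h0T]
    · intro θ hθ θ' hθ' heq
      refine hinj hθ hθ' ?_
      funext i
      obtain ⟨k, hk⟩ := hmd.ne i
      have h1 : Sy gg (fun i : G.I ⊕ G.J => Y θ t i) k = Sy gg (fun i : G.I ⊕ G.J => Y θ' t i) k :=
        congrFun heq k
      rw [hmd.Sy_mem (fun i : G.I ⊕ G.J => Y θ t i) hk,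
        hmd.Sy_mem (fun i : G.I ⊕ G.J => Y θ' t i) hk] at h1
      have h2 : gg i k ≠ 0 := by
        intro h3
        have h4 := hmd.flat i k hk
        rw [h3, norm_zero] at h4
        simp at h4
      exact smul_left_injective ℝ h2 h1

end Pool.Agent.K1H54.NU
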