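import Pool.Agent.K1H54.NU.Stm2
import Pool.Agent.K1H54.LO.Main2

/-!
Non-uniqueness: the conditions on the parameters after the blow-up time.
-/

open Set Filter Topology MeasureTheory
open scoped ENNReal

set_option autoImplicit false

namespace Pool.Agent.K1H54.NU

open Pool.Agent.Y5 Pool.Agent.Y5.D Pool.Agent.Y5.E Pool.Agent.K1H54.LO Pool.Agent.K1H54.L2

/-- The parameters of the inverse cascade. -/
lemma ex_fp (G : GS) {lam c₀ r₀ A₀ X₂ M : ℝ} (hlam : 10 ^ 13 ≤ lam)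
    (hc : ∀ n, G.c n = c₀ * lam ^ n) (hr : ∀ n, G.r n = r₀ * (2 * lam) ^ n)
    (hr₀ : 0 < r₀) (hA₀ : 0 < A₀) (hd' : ∀ j, G.d' j ≤ X₂ * (lam / 2) ^ G.sh' j)
    (hd : ∀ i, G.d i ≤ X₂ * (lam / 2) ^ G.sh i) (hM : 0 < M) :
    ∃ n₁ Λ, G.Fp n₁ M Λ (fun n => A₀ * (1 - 1 / 10 ^ 5) ^ n) := by
  have hl : 0 < lam := lt_of_lt_of_le (by norm_num) hlam
  set Y : ℝ := |X₂| with hY
  have hY0 : 0 ≤ Y := abs_nonneg _
  have hXY : X₂ ≤ Y := le_abs_self _
  set Λ : ℝ := 4 * Real.log (16 * lam) with hΛ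
  have hΛ2 : 2 ≤ Λ := by
    have h1 : Real.exp 1 ≤ 16 * lam := by
      have := Real.exp_one_lt_d9
      norm_num at hlam
      linarith
    have h2 : 1 ≤ Real.log (16 * lam) := by
      rw [Real.le_log_iff_exp_le (by positivity)]
      exact h1
    rw [hΛ]
    linarith
  have hexp : Real.exp (-(Λ / 4)) = (16 * lam)⁻¹ := by
    rw [hΛ, mul_div_cancel_left₀ _ (by norm_num), Real.exp_neg, Real.exp_log (by positivity)]
  have hκ : (0 : ℝ) < 1 - 1 / 10 ^ 5 := by norm_num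
  -- the first condition on `n₁`
  have t1 : Tendsto (fun n : ℕ => (4 * (1 - 1 / 10 ^ 5) : ℝ) ^ n) atTop atTop :=
    tendsto_pow_atTop_atTop_of_one_lt (by norm_num)
  have t2 : Tendsto (fun n : ℕ => (2 * (1 - 1 / 10 ^ 5) ^ 2 : ℝ) ^ n) atTop atTop :=
    tendsto_pow_atTop_atTop_of_one_lt (by norm_num)
  obtain ⟨n₁, hn₁⟩ := ((t1.eventually_ge_atTop (Y * 100 / (r₀ * A₀))).and
    (t2.eventually_ge_atTop ((2 * c₀ * M ^ 2 + Y * M) * Λ * 100 / (r₀ * A₀ ^ 2)))).exists_forall_of_atTop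
  refine ⟨n₁, Λ, hM, hΛ2, fun n => by positivity, fun n => by rw [hr]; positivity, ?_, ?_, ?_, ?_⟩
  · intro n _
    rw [hr, hr]
    have h1 : 0 < r₀ * (2 * lam) ^ n * (A₀ * (1 - 1 / 10 ^ 5) ^ n) := by positivity
    have e1 : r₀ * (2 * lam) ^ (n + 1) * (A₀ * (1 - 1 / 10 ^ 5) ^ (n + 1)) =
        (2 * lam * (1 - 1 / 10 ^ 5)) * (r₀ * (2 * lam) ^ n * (A₀ * (1 - 1 / 10 ^ 5) ^ n)) := by ring
    rw [e1]
    refine mul_le_mul_of_nonneg_right ?_ h1.le
    norm_num at hlam ⊢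
    linarith
  · intro n _
    rw [hr, hr, hexp]
    have h1 : 0 < r₀ * (2 * lam) ^ n * (A₀ * (1 - 1 / 10 ^ 5) ^ n) := by positivity
    have e1 : 4 * (16 * lam)⁻¹ * (r₀ * (2 * lam) ^ (n + 1) * (A₀ * (1 - 1 / 10 ^ 5) ^ n)) =
        1 / 2 * (r₀ * (2 * lam) ^ n * (A₀ * (1 - 1 / 10 ^ 5) ^ n)) := by
      rw [pow_succ]
      field_simp
      ring
    have e2 : r₀ * (2 * lam) ^ n * (A₀ * (1 - 1 / 10 ^ 5) ^ (n + 1)) =
        (1 - 1 / 10 ^ 5) * (r₀ * (2 * lam) ^ n * (A₀ * (1 - 1 / 10 ^ 5) ^ n)) := by ring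
    rw [e1, e2]
    exact mul_le_mul_of_nonneg_right (by norm_num) h1.le
  · intro n hn j hj
    have h1 := (hn₁ n hn).1
    rw [div_le_iff₀ (by positivity)] at h1
    refine (hd' j).trans ?_
    rw [hj, hr]
    have h2 : X₂ * (lam / 2) ^ n ≤ Y * (lam / 2) ^ n :=
      mul_le_mul_of_nonneg_right hXY (by positivity)
    refine h2.trans ?_
    have e1 : r₀ * (2 * lam) ^ n * (A₀ * (1 - 1 / 10 ^ 5) ^ n) / 100 =
        ((4 * (1 - 1 / 10 ^ 5)) ^ n * (r₀ * A₀)) / 100 * (lam / 2) ^ n := by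
      have e2 : (2 * lam) ^ n = 4 ^ n * (lam / 2) ^ n := by
        rw [← mul_pow]; congr 1; ring
      rw [e2, mul_pow]
      ring
    rw [e1]
    exact mul_le_mul_of_nonneg_right (by linarith) (by positivity)
  · intro n hn i hi
    have h1 := (hn₁ n hn).2
    rw [div_le_iff₀ (by positivity)] at h1
    rw [hr, hc]
    have h3 : G.d i ≤ Y * lam ^ n := by
      refine (hd i).trans ?_
      rw [hi]
      refine (mul_le_mul_of_nonneg_right hXY (by positivity)).trans ?_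
      refine mul_le_mul_of_nonneg_left ?_ hY0
      exact pow_le_pow_left₀ (by positivity) (by linarith) n
    have hΛ0 : 0 < Λ := by linarith
    calc (2 * (c₀ * lam ^ n) * M ^ 2 + G.d i * M) * Λ
        ≤ (2 * (c₀ * lam ^ n) * M ^ 2 + (Y * lam ^ n) * M) * Λ := by gcongr
      _ = (2 * c₀ * M ^ 2 + Y * M) * Λ * lam ^ n := by ring
      _ ≤ ((2 * (1 - 1 / 10 ^ 5) ^ 2) ^ n * (r₀ * A₀ ^ 2) / 100) * lam ^ n :=
          mul_le_mul_of_nonneg_right (by linarith) (by positivity)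
      _ = _ := by
        rw [mul_pow, ← pow_mul, mul_comm 2 n, pow_mul, mul_pow 2 lam n]
        ring

section
variable {I : Type} {sh : I → ℕ} {ty : I → Bool} {ρ : ℕ → ℕ} {g : I → Fam} {S : I → Finset Z3}
  {R : I → ℝ} {N : ℕ → ℝ} {s N₁ δ c₀ lam : ℝ}

/-- finitely many modes have radius at most `K` -/
lemma rad_fin (h : MS sh ty ρ g S R N s N₁ δ c₀ lam) (K : ℝ) : {i | R i ≤ K}.Finite := by
  obtain ⟨X, hX⟩ := h.poly
  have hl := h.lam1
  have hX0 : 0 ≤ X := by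
    by_contra hc
    push Not at hc
    have h1 := hX 0
    have h2 := h.N1 0
    rw [pow_zero] at h1
    have h3 : (0 : ℝ) < N 0 ^ 4 := by positivity
    nlinarith
  obtain ⟨m, hm⟩ := pow_unbounded_of_one_lt (X * K ^ 4) hl
  refine ((Set.finite_lt_nat m).biUnion (t := fun n => {i | sh i = n ∧ ty i = true} ∪
    {i | sh i = n ∧ ty i = false}) fun n _ => (h.shl.fin n true).union (h.shl.fin n false)).subset ?_
  intro i hi
  have hi' : R i ≤ K := hi
  simp only [Set.mem_iUnion]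
  have h1 := (h.size i).1
  have h2 := hX (sh i)
  have h3 := h.N1 (sh i)
  have h4 : lam ^ sh i < lam ^ m := by
    refine lt_of_le_of_lt (h2.trans ?_) hm
    gcongr
    linarith
  have h5 : sh i < m := (pow_lt_pow_iff_right₀ hl).1 h4
  refine ⟨sh i, h5, ?_⟩
  cases hty : ty i
  · exact Or.inr ⟨rfl, hty⟩
  · exact Or.inl ⟨rfl, hty⟩

end

/-- the dissipation -/
noncomputable def dr (ν α r : ℝ) : ℝ := ν * (2 * Real.pi * r) ^ (2 * α)

lemma dr_fin {ν α K : ℝ} (hν : 0 < ν) (hα : 0 < α) : ∃ K', ∀ r : ℝ, 0 ≤ r → dr ν α r ≤ K → r ≤ K' := by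
  have hpi := Real.pi_gt_three
  have h1 : Tendsto (fun r : ℝ => dr ν α r) atTop atTop := by
    unfold dr
    refine Tendsto.const_mul_atTop hν ?_
    refine (tendsto_rpow_atTop (by linarith : 0 < 2 * α)).comp ?_
    exact Tendsto.const_mul_atTop (by positivity) tendsto_id
  obtain ⟨K', hK'⟩ := (h1.eventually_gt_atTop K).exists_forall_of_atTop
  refine ⟨K', fun r hr h => ?_⟩
  by_contra hc
  push Not at hc
  exact absurd h (not_le.2 (hK' r hc.le))

end Pool.Agent.K1H54.NU
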