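import Pool.Agent.K1H54.NU.Cpt2
import Pool.Agent.K1H66.NU.AA
import Pool.Agent.K1H63.NU.TREN
import Pool.Agent.K1H63.NU.CDP
import Pool.Agent.K1H52.NU.Fire
import Pool.Agent.K1H33.NU.Pose
import Pool.Agent.K1H33.NU.Pp
import Pool.Agent.K1H99.NU.Vol

/-!
A continuum of Leray-Hopf solutions of the infinite system: all steps.
-/

set_option autoImplicit false

namespace Pool.Agent.K1H54.NU

theorem pose : S_POSE := Pool.Agent.K1H33.NU.t_POSE Pool.Agent.K1H63.NU.t_TREX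
  (t_CPT2 Pool.Agent.K1H66.NU.t_AA Pool.Agent.K1H63.NU.t_TREN)
  (Pool.Agent.K1H52.NU.t_FIRE Pool.Agent.K1H63.NU.t_TREN) Pool.Agent.K1H63.NU.t_CDP
  (Pool.Agent.K1H33.NU.t_PP Pool.Agent.K1H99.NU.t_VOL Pool.Agent.K1H63.NU.t_TREN)

end Pool.Agent.K1H54.NU
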