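import Pool.Agent.K1H54.NU.Stm2

/-!
Weak-strong uniqueness for the perturbed equations.
-/

open Set Filter Topology MeasureTheory
open scoped ENNReal

set_option autoImplicit false

namespace Pool.Agent.K1H54.NU

open Pool.Agent.Y5 Pool.Agent.Y5.D Pool.Agent.Y5.E Pool.Agent.K1H54.LO Pool.Agent.K1H54.L2

/-- Inequality of Gronwall for bounded measurable functions. -/
def S_GRW : Prop := ∀ (C M T : ℝ) (f : ℝ → ℝ), 0 ≤ C → (∀ t ∈ Icc 0 T, 0 ≤ f t ∧ f t ≤ M) →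
  AEStronglyMeasurable f (volume.restrict (Icc 0 T)) →
  (∀ t ∈ Icc 0 T, f t ≤ C * ∫ τ in (0 : ℝ)..t, f τ) → ∀ t ∈ Icc 0 T, f t = 0

/-- Leray-Hopf solutions coincide with the smooth solution with the same datum as long as the
latter exists. -/
def S_WSU : Prop := ∀ (s δ C T : ℝ) (D : Z3 → ℝ) (Q : Z3 → Prop) (β : Fam → Fam → Fam → ℝ)
  (U V : ℝ → Fam), Sym D → FPert s δ C Q β → FSolD D β T U → FLH D β V → V 0 = U 0 →
  ∀ t ∈ Ico 0 T, V t = U t

end Pool.Agent.K1H54.NU
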